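import Mathlib

set_option autoImplicit false

namespace Pool.Agent.H87.Aomoto

section

variable (K : Type) [CommRing K]

/-- The exterior algebra over `K` on `n` degree one generators. -/
abbrev Ext (n : ℕ) : Type := ExteriorAlgebra K (Fin n → K)

/-- An element `x` of a module `M`, as a degree one element of the exterior algebra of `M`. -/
noncomputable def incl {M : Type} [AddCommGroup M] [Module K M] (x : M) : ExteriorAlgebra K M :=
  ExteriorAlgebra.ι K x

/-- The degree one element `∑ x_i e_i` of the exterior algebra. -/
noncomputable def deg1 {n : ℕ} (x : Fin n → K) : Ext K n := incl K x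

/-- The degree one generator `e_i`. -/
noncomputable def gen {n : ℕ} (i : Fin n) : Ext K n := deg1 K (Pi.single i 1)

/-- The boundary `∂(e_i e_j e_k) = e_j e_k - e_i e_k + e_i e_j`. -/
noncomputable def boundary {n : ℕ} (i j k : Fin n) : Ext K n :=
  gen K j * gen K k - gen K i * gen K k + gen K i * gen K j

/-- The degree two part of the Orlik-Solomon ideal over `K` of the arrangement of the
hyperplanes `ker (f i)` (for pairwise non-proportional linear forms `f i`): the span of the
boundaries `∂(e_i e_j e_k)` over the triples of distinct indices whose three linear forms are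
linearly dependent. The degree two part of the Orlik-Solomon algebra is the quotient of the
degree two part of the exterior algebra by it. -/
noncomputable def relations {ℓ n : ℕ} (f : Fin n → (Fin ℓ → ℂ)) : Submodule K (Ext K n) :=
  Submodule.span K
    {x | ∃ i j k : Fin n, i ≠ j ∧ i ≠ k ∧ j ≠ k ∧
      ¬ LinearIndependent ℂ ![f i, f j, f k] ∧ x = boundary K i j k}

/-- For a module `M`, an element `s` of `M` and a submodule `R` of the exterior algebra of `M`,
the submodule of all `τ ∈ M` with `s ∧ τ ∈ R`. -/
noncomputable def killed {M : Type} [AddCommGroup M] [Module K M] (s : M)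
    (R : Submodule K (ExteriorAlgebra K M)) : Submodule K M :=
  R.comap ((LinearMap.mulLeft K (incl K s)).comp (ExteriorAlgebra.ι K))

/-- The kernel of multiplication by `σ = ∑ e_i` from the degree one part `K^n` of the
Orlik-Solomon algebra over `K` to its degree two part: all `τ` with `σ ∧ τ ∈ relations`. -/
noncomputable def cocycles {ℓ n : ℕ} (f : Fin n → (Fin ℓ → ℂ)) : Submodule K (Fin n → K) :=
  killed K (fun _ => 1) (relations K f)

/-- The Aomoto-Betti number `dim ker (σ : A^1 → A^2) - 1` (for `K = F_p`). -/
noncomputable def aomotoBetti {ℓ n : ℕ} (f : Fin n → (Fin ℓ → ℂ)) : ℕ :=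
  Module.finrank K (cocycles K f) - 1

end

end Pool.Agent.H87.Aomoto
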