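import Mathlib

set_option autoImplicit false

namespace Pool.Agent.H87

open Finset

theorem abel_identity (lam : ℕ → ℝ) (N : ℕ) :
    ((N : ℝ) + 1) * lam 0 + ∑ t ∈ range N, (lam (t + 1) - lam t) * ((N : ℝ) - t)
      = ∑ t ∈ range (N + 1), lam t := by
  induction N with
  | zero => simp
  | succ N ih =>
    rw [sum_range_succ (fun t => lam t) (N + 1), ← ih, sum_range_succ]
    have h2 : ∑ t ∈ range N, (lam (t + 1) - lam t) = lam N - lam 0 := sum_range_sub lam N
    have h3 : ∑ t ∈ range N, (lam (t + 1) - lam t) * (((N + 1 : ℕ) : ℝ) - t)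
        = ∑ t ∈ range N, (lam (t + 1) - lam t) * ((N : ℝ) - t)
          + ∑ t ∈ range N, (lam (t + 1) - lam t) := by
      rw [← sum_add_distrib]
      apply sum_congr rfl
      intros
      push_cast
      ring
    rw [h3, h2]
    push_cast
    ring

section Greedy

variable {ι : Type*} [Fintype ι] {E : Type*} [AddCommGroup E] [Module ℂ E]

/-- Greedy choice of a basis among a spanning family, in order of increasing `y`. -/
theorem exists_greedy [FiniteDimensional ℂ E] (v : ι → E)
    (hv : Submodule.span ℂ (Set.range v) = ⊤)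
    (y : ι → ℝ) (k : ℕ) (hk : k ≤ Module.finrank ℂ E) :
    ∃ b : Fin k → ι, LinearIndependent ℂ (v ∘ b) ∧
      ∀ i : Fin k, ∀ j : ι,
        v j ∉ Submodule.span ℂ ((v ∘ b) '' {i' | i' < i}) → y (b i) ≤ y j := by
  classical
  induction k with
  | zero => exact ⟨Fin.elim0, linearIndependent_empty_type, fun i => i.elim0⟩
  | succ k ih =>
    obtain ⟨b, hb, hb'⟩ := ih (by omega)
    have hproper : Submodule.span ℂ (Set.range (v ∘ b)) ≠ ⊤ := by
      intro h
      have h1 : Module.finrank ℂ (Submodule.span ℂ (Set.range (v ∘ b))) ≤ k := by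
        have := finrank_range_le_card (R := ℂ) (v ∘ b)
        simpa [Set.finrank] using this
      rw [h, finrank_top] at h1
      omega
    have hne : (univ.filter (fun j => v j ∉ Submodule.span ℂ (Set.range (v ∘ b)))).Nonempty := by
      by_contra hcon
      rw [Finset.not_nonempty_iff_eq_empty, Finset.filter_eq_empty_iff] at hcon
      apply hproper
      rw [eq_top_iff, ← hv, Submodule.span_le]
      rintro _ ⟨j, rfl⟩
      have := hcon (Finset.mem_univ j)
      simpa using this
    obtain ⟨j₀, hj₀, hmin⟩ := Finset.exists_min_image _ y hne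
    rw [Finset.mem_filter] at hj₀
    refine ⟨Fin.snoc b j₀, ?_, ?_⟩
    · have : v ∘ (Fin.snoc b j₀ : Fin (k + 1) → ι) = Fin.snoc (v ∘ b) (v j₀) := by
        ext i
        refine Fin.lastCases ?_ (fun i => ?_) i <;> simp
      rw [this, linearIndependent_finSnoc]
      exact ⟨hb, hj₀.2⟩
    · intro i j hj
      induction i using Fin.lastCases with
      | last =>
        simp only [Fin.snoc_last]
        apply hmin
        rw [Finset.mem_filter]
        refine ⟨Finset.mem_univ _, fun hmem => hj ?_⟩
        refine Submodule.span_mono ?_ hmem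
        rintro _ ⟨i', rfl⟩
        refine ⟨i'.castSucc, ?_, ?_⟩
        · simp [Fin.castSucc_lt_last]
        · simp
      | cast i =>
        simp only [Fin.snoc_castSucc]
        apply hb' i j
        intro hmem
        apply hj
        refine Submodule.span_mono ?_ hmem
        rintro _ ⟨i', hi', rfl⟩
        refine ⟨i'.castSucc, ?_, ?_⟩
        · simpa using hi'
        · simp

end Greedy

end Pool.Agent.H87
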