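import Mathlib
import Pool.Agent.H87.Greedy

set_option autoImplicit false

namespace Pool.Agent.H87

open Finset

section

variable {ι : Type*} [Fintype ι] {E : Type*} [AddCommGroup E] [Module ℂ E]

open Classical in
/-- total weight of the vectors of the family lying in the subspace `W` -/
noncomputable def wt (c : ι → ℝ) (v : ι → E) (W : Submodule ℂ E) : ℝ :=
  ∑ i, if v i ∈ W then c i else 0

/-- semistability of a weighted family of vectors -/
def Semistable (c : ι → ℝ) (v : ι → E) : Prop :=
  ∀ W : Submodule ℂ E,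
    (Module.finrank ℂ E : ℝ) * wt c v W ≤ (Module.finrank ℂ W : ℝ) * ∑ i, c i

theorem pointwise_bound (n : ℕ) (lam : ℕ → ℝ) (hmono : ∀ t, t < n → lam t ≤ lam (t + 1))
    (chi : ℕ → Prop) [DecidablePred chi] (z : ℝ) (h0 : lam 0 ≤ z)
    (hz : ∀ t, t ≤ n → ¬ chi t → lam t ≤ z) :
    lam 0 + ∑ s ∈ range n, (lam (s + 1) - lam s) * (if chi (s + 1) then 0 else 1) ≤ z := by
  induction n with
  | zero => simpa using h0
  | succ n ih =>
    by_cases hc : chi (n + 1)
    · rw [sum_range_succ, if_pos hc]
      have := ih (fun t ht => hmono t (by omega)) (fun t ht => hz t (by omega))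
      linarith
    · have h1 := hz (n + 1) le_rfl hc
      have h2 : ∑ s ∈ range (n + 1), (lam (s + 1) - lam s) * (if chi (s + 1) then 0 else 1)
          ≤ ∑ s ∈ range (n + 1), (lam (s + 1) - lam s) := by
        apply sum_le_sum
        intro s hs
        rw [mem_range] at hs
        have := hmono s hs
        split_ifs
        · linarith
        · linarith
      rw [sum_range_sub lam] at h2
      linarith

theorem greedy_sum_le [FiniteDimensional ℂ E] (n : ℕ) (hn : Module.finrank ℂ E = n + 1)
    (v : ι → E) (hv0 : ∀ i, v i ≠ 0)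
    (c : ι → ℝ) (hc : ∀ i, 0 ≤ c i) (hstab : Semistable c v)
    (y : ι → ℝ) (b : Fin (n + 1) → ι) (hb : LinearIndependent ℂ (v ∘ b))
    (hmin : ∀ i : Fin (n + 1), ∀ j : ι,
        v j ∉ Submodule.span ℂ ((v ∘ b) '' {i' | i' < i}) → y (b i) ≤ y j) :
    (∑ i, c i) / ((n : ℝ) + 1) * ∑ k, y (b k) ≤ ∑ j, c j * y j := by
  classical
  -- the flag
  set W : ℕ → Submodule ℂ E := fun t => Submodule.span ℂ ((v ∘ b) '' {i' | (i' : ℕ) < t}) with hW
  set lam : ℕ → ℝ := fun t => if h : t < n + 1 then y (b ⟨t, h⟩) else 0 with hlam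
  have hlamval : ∀ (t : ℕ) (h : t < n + 1), lam t = y (b ⟨t, h⟩) := by
    intro t h
    simp only [hlam]
    rw [dif_pos h]
  have hWfin : ∀ t, (Module.finrank ℂ (W t) : ℝ) ≤ t := by
    intro t
    have h1 : W t = Submodule.span ℂ ((univ.filter (fun i' : Fin (n + 1) => (i' : ℕ) < t)).image (v ∘ b) : Set E) := by
      simp only [hW]
      congr 1
      ext x
      simp
    have h2 : Module.finrank ℂ (W t) ≤ ((univ.filter (fun i' : Fin (n + 1) => (i' : ℕ) < t)).image (v ∘ b)).card := by
      rw [h1]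
      exact finrank_span_finset_le_card _
    have h3 : ((univ.filter (fun i' : Fin (n + 1) => (i' : ℕ) < t)).image (v ∘ b)).card ≤ t := by
      refine (Finset.card_image_le).trans ?_
      have : (univ.filter (fun i' : Fin (n + 1) => (i' : ℕ) < t)).card ≤ (range t).card := by
        apply Finset.card_le_card_of_injOn (fun i : Fin (n + 1) => (i : ℕ))
        · intro i hi
          simpa using hi
        · intro i _ j _ hij
          exact Fin.ext hij
      simpa using this
    exact_mod_cast h2.trans h3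
  have hnot : ∀ (t : ℕ) (_ : t < n + 1) (j : ι), v j ∉ W t → lam t ≤ y j := by
    intro t h j hj
    rw [hlamval t h]
    apply hmin
    intro hmem
    apply hj
    refine Submodule.span_mono ?_ hmem
    rintro _ ⟨i', hi', rfl⟩
    exact ⟨i', by simpa [Fin.lt_def] using hi', rfl⟩
  have hmono : ∀ t, t < n → lam t ≤ lam (t + 1) := by
    intro t ht
    rw [hlamval (t + 1) (by omega)]
    apply hnot t (by omega)
    intro hmem
    have := hb.notMem_span_image (s := {i' : Fin (n + 1) | (i' : ℕ) < t})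
      (x := ⟨t + 1, by omega⟩) (by simp)
    exact this hmem
  have hW0 : W 0 = ⊥ := by
    simp [hW]
  have hpt : ∀ j : ι, lam 0 + ∑ s ∈ range n, (lam (s + 1) - lam s) *
      (if v j ∈ W (s + 1) then 0 else 1) ≤ y j := by
    intro j
    have h00 : lam 0 ≤ y j := by
      apply hnot 0 (by omega)
      rw [hW0]
      simpa using hv0 j
    exact pointwise_bound n lam hmono (fun t => v j ∈ W t) (y j) h00
      (fun t ht hct => hnot t (by omega) j hct)
  -- sum with weights
  have hsum : ∑ j, c j * (lam 0 + ∑ s ∈ range n, (lam (s + 1) - lam s) *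
      (if v j ∈ W (s + 1) then 0 else 1)) ≤ ∑ j, c j * y j :=
    sum_le_sum (fun j _ => mul_le_mul_of_nonneg_left (hpt j) (hc j))
  refine le_trans ?_ hsum
  have hexp : ∑ j, c j * (lam 0 + ∑ s ∈ range n, (lam (s + 1) - lam s) *
      (if v j ∈ W (s + 1) then 0 else 1))
      = (∑ j, c j) * lam 0 + ∑ s ∈ range n, (lam (s + 1) - lam s) *
        ((∑ j, c j) - wt c v (W (s + 1))) := by
    have h1 : ∀ s, (∑ j, c j) - wt c v (W (s + 1)) =
        ∑ j, c j * (if v j ∈ W (s + 1) then 0 else 1) := by
      intro s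
      unfold wt
      rw [← sum_sub_distrib]
      apply sum_congr rfl
      intro j _
      split_ifs <;> simp
    simp_rw [h1, mul_add, sum_add_distrib, mul_sum]
    rw [← sum_mul, sum_comm]
    congr 1
    apply sum_congr rfl
    intro s _
    apply sum_congr rfl
    intro j _
    ring
  rw [hexp]
  have hC : 0 ≤ ∑ j, c j := sum_nonneg (fun i _ => hc i)
  have hn1 : (0 : ℝ) < (n : ℝ) + 1 := by positivity
  have hterm : ∀ s ∈ range n, (lam (s + 1) - lam s) *
      ((∑ j, c j) * (((n : ℝ) - s) / ((n : ℝ) + 1))) ≤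
      (lam (s + 1) - lam s) * ((∑ j, c j) - wt c v (W (s + 1))) := by
    intro s hs
    rw [mem_range] at hs
    apply mul_le_mul_of_nonneg_left _ (by linarith [hmono s hs])
    have h1 := hstab (W (s + 1))
    rw [hn] at h1
    have h2 := hWfin (s + 1)
    have h3 : ((n : ℝ) + 1) * wt c v (W (s + 1)) ≤ ((s : ℝ) + 1) * ∑ j, c j := by
      have h4 : (Module.finrank ℂ (W (s + 1)) : ℝ) * ∑ i, c i ≤ ((s + 1 : ℕ) : ℝ) * ∑ i, c i :=
        mul_le_mul_of_nonneg_right h2 hC
      push_cast at h1 h4
      linarith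
    rw [mul_div_assoc', div_le_iff₀ hn1]
    nlinarith
  have hfin := sum_le_sum hterm
  have hab := abel_identity lam n
  have hsumlam : ∑ t ∈ range (n + 1), lam t = ∑ k : Fin (n + 1), y (b k) := by
    rw [← Fin.sum_univ_eq_sum_range]
    apply sum_congr rfl
    intro k _
    exact hlamval k k.2
  rw [← hsumlam, ← hab]
  have h5 : ∑ s ∈ range n, (lam (s + 1) - lam s) * ((∑ j, c j) * (((n : ℝ) - s) / ((n : ℝ) + 1)))
      = (∑ j, c j) / ((n : ℝ) + 1) * ∑ s ∈ range n, (lam (s + 1) - lam s) * ((n : ℝ) - s) := by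
    rw [mul_sum]
    apply sum_congr rfl
    intro s _
    ring
  rw [h5] at hfin
  have h6 : (∑ j, c j) / ((n : ℝ) + 1) * (((n : ℝ) + 1) * lam 0) = (∑ j, c j) * lam 0 := by
    field_simp
  rw [mul_add, h6]
  linarith

end

end Pool.Agent.H87
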