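import Mathlib
import Pool.Agent.H87.Greedy2

set_option autoImplicit false

namespace Pool.Agent.H87

open Finset Module

section

variable {ι : Type*} [Fintype ι] {E : Type*} [NormedAddCommGroup E] [InnerProductSpace ℂ E]

/-- A crude Hadamard bound. -/
theorem norm_det_le {r : ℕ} (O : OrthonormalBasis (Fin r) ℂ E) (x : Fin r → E) :
    ‖O.toBasis.det x‖ ≤ (r.factorial : ℝ) * ∏ k, ‖x k‖ := by
  rw [Basis.det_apply, Matrix.det_apply]
  refine (norm_sum_le _ _).trans ?_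
  have h1 : ∀ σ : Equiv.Perm (Fin r),
      ‖Equiv.Perm.sign σ • ∏ i, O.toBasis.toMatrix x (σ i) i‖ ≤ ∏ k, ‖x k‖ := by
    intro σ
    have h2 : ‖Equiv.Perm.sign σ • ∏ i, O.toBasis.toMatrix x (σ i) i‖
        = ‖∏ i, O.toBasis.toMatrix x (σ i) i‖ := by
      rcases Int.units_eq_one_or (Equiv.Perm.sign σ) with h | h <;> simp [h]
    rw [h2, norm_prod]
    apply Finset.prod_le_prod
    · intro i _
      exact norm_nonneg _
    · intro i _
      rw [Basis.toMatrix_apply]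
      have h3 : O.toBasis.repr (x i) (σ i) = inner ℂ (O (σ i)) (x i) := by
        rw [OrthonormalBasis.coe_toBasis_repr_apply, OrthonormalBasis.repr_apply_apply]
      rw [h3]
      refine (norm_inner_le_norm _ _).trans ?_
      rw [O.orthonormal.1, one_mul]
  refine (sum_le_sum (fun σ _ => h1 σ)).trans ?_
  rw [sum_const, card_univ, Fintype.card_perm, Fintype.card_fin, nsmul_eq_mul]

/-- The potential. -/
noncomputable def pot (c : ι → ℝ) (v : ι → E) (T : E →ₗ[ℂ] E) : ℝ :=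
  ∑ j, c j * Real.log ‖T (v j)‖ -
    (∑ j, c j) / (finrank ℂ E : ℝ) * Real.log ‖LinearMap.det T‖

theorem injective_of_det_ne_zero [FiniteDimensional ℂ E] (T : E →ₗ[ℂ] E)
    (hT : LinearMap.det T ≠ 0) : Function.Injective T := by
  have h : LinearMap.ker T = ⊥ := by
    by_contra hne
    exact hT (LinearMap.det_eq_zero_iff_ker_ne_bot.2 hne)
  exact LinearMap.ker_eq_bot.1 h

theorem pot_bddBelow [FiniteDimensional ℂ E] (n : ℕ) (hn : finrank ℂ E = n + 1)
    (v : ι → E) (hv0 : ∀ i, v i ≠ 0) (hspan : Submodule.span ℂ (Set.range v) = ⊤)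
    (c : ι → ℝ) (hc : ∀ i, 0 ≤ c i) (hstab : Semistable c v) :
    ∃ m : ℝ, ∀ T : E →ₗ[ℂ] E, LinearMap.det T ≠ 0 → m ≤ pot c v T := by
  classical
  have hcard : Fintype.card (Fin (n + 1)) = finrank ℂ E := by rw [Fintype.card_fin, hn]
  let O : OrthonormalBasis (Fin (n + 1)) ℂ E :=
    (stdOrthonormalBasis ℂ E).reindex (finCongr hn)
  obtain ⟨L, hL⟩ := (Set.finite_range
    (fun b : Fin (n + 1) → ι => Real.log ‖O.toBasis.det (v ∘ b)‖)).bddBelow
  have hL' : ∀ b : Fin (n + 1) → ι, L ≤ Real.log ‖O.toBasis.det (v ∘ b)‖ := by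
    intro b
    exact hL ⟨b, rfl⟩
  have hC : 0 ≤ ∑ j, c j := sum_nonneg (fun i _ => hc i)
  have hn1 : (0 : ℝ) < (n : ℝ) + 1 := by positivity
  refine ⟨(∑ j, c j) / ((n : ℝ) + 1) * (L - Real.log ((n + 1).factorial : ℝ)), ?_⟩
  intro T hT
  have hinj := injective_of_det_ne_zero T hT
  obtain ⟨b, hb, hmin⟩ := exists_greedy v hspan (fun j => Real.log ‖T (v j)‖) (n + 1)
    (by rw [hn])
  have hsum := greedy_sum_le n hn v hv0 c hc hstab (fun j => Real.log ‖T (v j)‖) b hb hmin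
  have hTne : ∀ j, T (v j) ≠ 0 := by
    intro j h
    apply hv0 j
    apply hinj
    rw [h, map_zero]
  have hdetb : O.toBasis.det (v ∘ b) ≠ 0 := by
    have hB := (Module.Basis.is_basis_iff_det O.toBasis (v := v ∘ b)).1
      ⟨hb, hb.span_eq_top_of_card_eq_finrank' hcard⟩
    exact hB.ne_zero
  have hprod : Real.log ‖LinearMap.det T‖ + Real.log ‖O.toBasis.det (v ∘ b)‖
      - Real.log ((n + 1).factorial : ℝ) ≤ ∑ k, Real.log ‖T (v (b k))‖ := by
    have h1 : O.toBasis.det (T ∘ (v ∘ b)) = LinearMap.det T * O.toBasis.det (v ∘ b) :=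
      Basis.det_comp _ _ _
    have h2 := norm_det_le O (T ∘ (v ∘ b))
    rw [h1, norm_mul] at h2
    have hpos1 : 0 < ‖LinearMap.det T‖ := norm_pos_iff.2 hT
    have hpos2 : 0 < ‖O.toBasis.det (v ∘ b)‖ := norm_pos_iff.2 hdetb
    have hf : (0 : ℝ) < ((n + 1).factorial : ℝ) := by exact_mod_cast Nat.factorial_pos _
    have hpos3 : 0 < ∏ k, ‖(T ∘ (v ∘ b)) k‖ :=
      Finset.prod_pos (fun k _ => norm_pos_iff.2 (hTne (b k)))
    have h3 := Real.log_le_log (mul_pos hpos1 hpos2) h2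
    rw [Real.log_mul hpos1.ne' hpos2.ne', Real.log_mul hf.ne' hpos3.ne', Real.log_prod] at h3
    · simp only [Function.comp_apply] at h3
      linarith
    · intro k _
      exact (norm_pos_iff.2 (hTne (b k))).ne'
  unfold pot
  rw [hn]
  have h4 : (∑ j, c j) / ((n : ℝ) + 1) *
      (Real.log ‖LinearMap.det T‖ + L - Real.log ((n + 1).factorial : ℝ))
      ≤ (∑ i, c i) / ((n : ℝ) + 1) * ∑ k, Real.log ‖T (v (b k))‖ := by
    apply mul_le_mul_of_nonneg_left _ (div_nonneg hC hn1.le)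
    have := hL' b
    linarith
  push_cast
  have h5 := h4.trans hsum
  have h6 : (∑ j, c j) / ((n : ℝ) + 1) *
      (Real.log ‖LinearMap.det T‖ + L - Real.log ((n + 1).factorial : ℝ))
      = (∑ j, c j) / ((n : ℝ) + 1) * (L - Real.log ((n + 1).factorial : ℝ))
        + (∑ j, c j) / ((n : ℝ) + 1) * Real.log ‖LinearMap.det T‖ := by ring
  rw [h6] at h5
  linarith

end

end Pool.Agent.H87
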