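import Mathlib
import Pool.Agent.H87.Potential

set_option autoImplicit false

namespace Pool.Agent.H87

open Finset Module

section

variable {ι : Type*} [Fintype ι] {E : Type*} [NormedAddCommGroup E] [InnerProductSpace ℂ E]

/-- The rank-one modification `x ↦ x - s ⟪w, x⟫ w`. -/
noncomputable def shrink (w : E) (s : ℝ) : E →ₗ[ℂ] E :=
  LinearMap.transvection ((-(s : ℂ)) • (innerSL ℂ w : E →L[ℂ] ℂ).toLinearMap) w

theorem shrink_apply (w : E) (s : ℝ) (x : E) :
    shrink w s x = x - ((s : ℂ) * inner ℂ w x) • w := by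
  unfold shrink
  rw [LinearMap.transvection.apply]
  simp [sub_eq_add_neg]

theorem det_shrink [FiniteDimensional ℂ E] (w : E) (hw : ‖w‖ = 1) (s : ℝ) :
    LinearMap.det (shrink w s) = ((1 - s : ℝ) : ℂ) := by
  unfold shrink
  rw [LinearMap.transvection.det]
  simp [hw, sub_eq_add_neg]

theorem norm_sq_shrink (w : E) (hw : ‖w‖ = 1) (s : ℝ) (x : E) :
    ‖shrink w s x‖ ^ 2 = ‖x‖ ^ 2 - (2 * s - s ^ 2) * ‖inner ℂ w x‖ ^ 2 := by
  rw [shrink_apply, @norm_sub_sq ℂ]
  rw [inner_smul_right, norm_smul, hw]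
  have h1 : inner ℂ x w = (starRingEnd ℂ) (inner ℂ w x) := (inner_conj_symm x w).symm
  rw [h1]
  have h2 : RCLike.re (((s : ℂ) * inner ℂ w x) * (starRingEnd ℂ) (inner ℂ w x))
      = s * ‖inner ℂ w x‖ ^ 2 := by
    rw [mul_assoc, Complex.mul_conj, Complex.normSq_eq_norm_sq]
    rw [← Complex.ofReal_mul]
    exact Complex.ofReal_re _
  rw [h2, norm_mul, Complex.norm_real, mul_one, mul_pow, Real.norm_eq_abs, sq_abs]
  ring

theorem near_min [FiniteDimensional ℂ E] (n : ℕ) (hn : finrank ℂ E = n + 1)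
    (v : ι → E) (hv0 : ∀ i, v i ≠ 0) (hspan : Submodule.span ℂ (Set.range v) = ⊤)
    (c : ι → ℝ) (hc : ∀ i, 0 ≤ c i) (hstab : Semistable c v) (η : ℝ) (hη : 0 < η) :
    ∃ T : E →ₗ[ℂ] E, LinearMap.det T ≠ 0 ∧ ∀ w : E, ‖w‖ = 1 →
      ∑ j, c j * (‖inner ℂ w (T (v j))‖ ^ 2 / ‖T (v j)‖ ^ 2)
        ≤ (∑ j, c j) / ((n : ℝ) + 1) + η := by
  classical
  set K : ℝ := (∑ j, c j) / ((n : ℝ) + 1) with hK
  have hC : 0 ≤ ∑ j, c j := sum_nonneg (fun i _ => hc i)
  have hn1 : (0 : ℝ) < (n : ℝ) + 1 := by positivity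
  have hK0 : 0 ≤ K := div_nonneg hC hn1.le
  obtain ⟨m, hm⟩ := pot_bddBelow n hn v hv0 hspan c hc hstab
  set S : Set ℝ := {x | ∃ T : E →ₗ[ℂ] E, LinearMap.det T ≠ 0 ∧ x = pot c v T} with hS
  have hSne : S.Nonempty := ⟨pot c v LinearMap.id, LinearMap.id, by simp, rfl⟩
  have hSb : BddBelow S := ⟨m, by rintro x ⟨T, hT, rfl⟩; exact hm T hT⟩
  set s : ℝ := η / (5 * K + 2 * η) with hs
  have hden : 0 < 5 * K + 2 * η := by positivity
  have hs0 : 0 < s := div_pos hη hden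
  have hsK : s * (5 * K + 2 * η) = η := by rw [hs]; field_simp
  have hs12 : s ≤ 1 / 2 := by
    rw [hs, div_le_iff₀ hden]
    nlinarith
  have hε : 0 < s * η / 2 := by positivity
  obtain ⟨_, ⟨T, hT, rfl⟩, hlt⟩ := exists_lt_of_csInf_lt hSne (lt_add_of_pos_right (sInf S) hε)
  refine ⟨T, hT, ?_⟩
  intro w hw
  have hinj := injective_of_det_ne_zero T hT
  have hTne : ∀ j, T (v j) ≠ 0 := by
    intro j h
    apply hv0 j
    apply hinj
    rw [h, map_zero]
  have hTpos : ∀ j, 0 < ‖T (v j)‖ := fun j => norm_pos_iff.2 (hTne j)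
  -- the modified map
  set T' : E →ₗ[ℂ] E := (shrink w s) ∘ₗ T with hT'
  have hdetT' : LinearMap.det T' = ((1 - s : ℝ) : ℂ) * LinearMap.det T := by
    rw [hT', LinearMap.det_comp, det_shrink w hw s]
  have h1s : 0 < 1 - s := by linarith
  have hT'0 : LinearMap.det T' ≠ 0 := by
    rw [hdetT']
    apply mul_ne_zero _ hT
    exact_mod_cast h1s.ne'
  have hge : sInf S ≤ pot c v T' := csInf_le hSb ⟨T', hT'0, rfl⟩
  have hdiff : pot c v T - s * η / 2 < pot c v T' := by linarith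
  -- quotients
  set q : ι → ℝ := fun j => ‖inner ℂ w (T (v j))‖ ^ 2 / ‖T (v j)‖ ^ 2 with hq
  have hq0 : ∀ j, 0 ≤ q j := fun j => by positivity
  have hq1 : ∀ j, q j ≤ 1 := by
    intro j
    simp only [hq]
    rw [div_le_one (by have := hTpos j; positivity)]
    have h1 := norm_inner_le_norm (𝕜 := ℂ) w (T (v j))
    rw [hw, one_mul] at h1
    have h0 : 0 ≤ ‖inner ℂ w (T (v j))‖ := norm_nonneg _
    nlinarith
  have hlog : ∀ j, Real.log ‖T' (v j)‖ ≤ Real.log ‖T (v j)‖ - (s - s ^ 2 / 2) * q j := by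
    intro j
    have hinj' := injective_of_det_ne_zero T' hT'0
    have hT'ne : T' (v j) ≠ 0 := by
      intro h
      apply hv0 j
      apply hinj'
      rw [h, map_zero]
    have hT'pos : 0 < ‖T' (v j)‖ := norm_pos_iff.2 hT'ne
    have h1 : ‖T' (v j)‖ ^ 2 = ‖T (v j)‖ ^ 2 * (1 - (2 * s - s ^ 2) * q j) := by
      have h2 : T' (v j) = shrink w s (T (v j)) := rfl
      rw [h2, norm_sq_shrink w hw s]
      simp only [hq]
      have := (hTpos j).ne'
      field_simp
    have hpos : 0 < 1 - (2 * s - s ^ 2) * q j := by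
      have h3 : 0 < ‖T' (v j)‖ ^ 2 := by positivity
      rw [h1] at h3
      have h4 : 0 < ‖T (v j)‖ ^ 2 := by have := hTpos j; positivity
      exact (pos_iff_pos_of_mul_pos h3).1 h4
    have h5 : Real.log (‖T' (v j)‖ ^ 2) = Real.log (‖T (v j)‖ ^ 2) +
        Real.log (1 - (2 * s - s ^ 2) * q j) := by
      rw [h1, Real.log_mul (by have := hTpos j; positivity) hpos.ne']
    rw [Real.log_pow, Real.log_pow] at h5
    have h6 := Real.log_le_sub_one_of_pos hpos
    push_cast at h5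
    nlinarith
  have hsumlog : ∑ j, c j * Real.log ‖T' (v j)‖ ≤ ∑ j, c j * Real.log ‖T (v j)‖
      - (s - s ^ 2 / 2) * ∑ j, c j * q j := by
    rw [mul_sum, ← sum_sub_distrib]
    apply sum_le_sum
    intro j _
    have := mul_le_mul_of_nonneg_left (hlog j) (hc j)
    linarith
  have hlogdet : Real.log ‖LinearMap.det T'‖ = Real.log (1 - s) + Real.log ‖LinearMap.det T‖ := by
    rw [hdetT', norm_mul, Complex.norm_real, Real.norm_eq_abs, abs_of_pos h1s,
      Real.log_mul h1s.ne' (norm_pos_iff.2 hT).ne']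
  have hlog1s : -(s / (1 - s)) ≤ Real.log (1 - s) := by
    have := Real.one_sub_inv_le_log_of_pos h1s
    have h2 : 1 - (1 - s)⁻¹ = -(s / (1 - s)) := by
      field_simp
      ring
    linarith
  have hs2 : s / (1 - s) ≤ s + 2 * s ^ 2 := by
    rw [div_le_iff₀ h1s]
    nlinarith [mul_pos hs0 hs0, mul_nonneg (mul_pos hs0 hs0).le (by linarith : (0:ℝ) ≤ 1 - 2 * s)]
  have hpot : pot c v T' = ∑ j, c j * Real.log ‖T' (v j)‖ - K * Real.log ‖LinearMap.det T'‖ := by
    unfold pot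
    rw [hn, hK]
    push_cast
    ring
  have hpot2 : pot c v T = ∑ j, c j * Real.log ‖T (v j)‖ - K * Real.log ‖LinearMap.det T‖ := by
    unfold pot
    rw [hn, hK]
    push_cast
    ring
  rw [hpot, hpot2, hlogdet] at hdiff
  have hkey : (s - s ^ 2 / 2) * ∑ j, c j * q j < s * η / 2 + K * (s + 2 * s ^ 2) := by
    have h1 : K * (-(s / (1 - s))) ≤ K * Real.log (1 - s) := mul_le_mul_of_nonneg_left hlog1s hK0
    have h2 : K * (s / (1 - s)) ≤ K * (s + 2 * s ^ 2) := mul_le_mul_of_nonneg_left hs2 hK0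
    nlinarith
  have hkey2 : (1 - s / 2) * ∑ j, c j * q j < η / 2 + K * (1 + 2 * s) := by
    have h1 : s * ((1 - s / 2) * ∑ j, c j * q j) < s * (η / 2 + K * (1 + 2 * s)) := by
      have e1 : s * ((1 - s / 2) * ∑ j, c j * q j) = (s - s ^ 2 / 2) * ∑ j, c j * q j := by ring
      have e2 : s * (η / 2 + K * (1 + 2 * s)) = s * η / 2 + K * (s + 2 * s ^ 2) := by ring
      rw [e1, e2]
      exact hkey
    exact lt_of_mul_lt_mul_left h1 hs0.le
  by_contra hcon
  push Not at hcon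
  have h7 : (1 - s / 2) * (K + η) < (1 - s / 2) * ∑ j, c j * q j :=
    mul_lt_mul_of_pos_left hcon (by linarith)
  nlinarith

end

end Pool.Agent.H87
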