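import Mathlib
import Pool.Agent.H87.NearMin

set_option autoImplicit false

namespace Pool.Agent.H87

open Finset Module

theorem bloch (α β α' β' : ℂ) :
    Complex.normSq ((starRingEnd ℂ) α * α' + (starRingEnd ℂ) β * β')
      = ((Complex.normSq α + Complex.normSq β) * (Complex.normSq α' + Complex.normSq β')
        + (Complex.normSq α - Complex.normSq β) * (Complex.normSq α' - Complex.normSq β')
        + (2 * (α * (starRingEnd ℂ) β).re) * (2 * (α' * (starRingEnd ℂ) β').re)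
        + (2 * (α * (starRingEnd ℂ) β).im) * (2 * (α' * (starRingEnd ℂ) β').im)) / 2 := by
  simp only [Complex.normSq_apply, Complex.add_re, Complex.add_im, Complex.mul_re, Complex.mul_im,
    Complex.conj_re, Complex.conj_im]
  ring

section

variable {ι : Type*} {E : Type*} [NormedAddCommGroup E] [InnerProductSpace ℂ E]

/-- Second moment bound for unit vectors in a plane. -/
theorem plane_bound (L : Submodule ℂ E) (hL : finrank ℂ L = 2) (P : Finset ι) (x : ι → E)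
    (hx : ∀ i ∈ P, x i ∈ L) (hx1 : ∀ i ∈ P, ‖x i‖ = 1) (c : ι → ℝ) :
    (∑ i ∈ P, c i) ^ 2 / 2 ≤ ∑ i ∈ P, ∑ j ∈ P, c i * c j * ‖inner ℂ (x i) (x j)‖ ^ 2 := by
  have : FiniteDimensional ℂ L := FiniteDimensional.of_finrank_pos (by rw [hL]; norm_num)
  let O : OrthonormalBasis (Fin 2) ℂ L := (stdOrthonormalBasis ℂ L).reindex (finCongr hL)
  set a : ι → ℂ := fun i => inner ℂ (O 0 : E) (x i) with ha
  set b : ι → ℂ := fun i => inner ℂ (O 1 : E) (x i) with hb
  have hinner : ∀ i ∈ P, ∀ j ∈ P, inner ℂ (x i) (x j) =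
      (starRingEnd ℂ) (a i) * a j + (starRingEnd ℂ) (b i) * b j := by
    intro i hi j hj
    have h1 := O.sum_inner_mul_inner (⟨x i, hx i hi⟩ : L) (⟨x j, hx j hj⟩ : L)
    rw [Fin.sum_univ_two] at h1
    simp only [Submodule.coe_inner] at h1
    rw [← h1]
    simp only [ha, hb, inner_conj_symm]
  set n1 : ι → ℝ := fun i => Complex.normSq (a i) - Complex.normSq (b i) with hn1
  set n2 : ι → ℝ := fun i => 2 * (a i * (starRingEnd ℂ) (b i)).re with hn2
  set n3 : ι → ℝ := fun i => 2 * (a i * (starRingEnd ℂ) (b i)).im with hn3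
  have hunit : ∀ i ∈ P, Complex.normSq (a i) + Complex.normSq (b i) = 1 := by
    intro i hi
    have h1 := hinner i hi i hi
    rw [inner_self_eq_norm_sq_to_K, hx1 i hi] at h1
    have h2 : (starRingEnd ℂ) (a i) * a i + (starRingEnd ℂ) (b i) * b i
        = ((Complex.normSq (a i) + Complex.normSq (b i) : ℝ) : ℂ) := by
      rw [mul_comm _ (a i), mul_comm _ (b i), Complex.mul_conj, Complex.mul_conj]
      push_cast
      rfl
    rw [h2] at h1
    have h3 : ((1 : ℝ) : ℂ) = ((Complex.normSq (a i) + Complex.normSq (b i) : ℝ) : ℂ) := by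
      rw [← h1]
      norm_num
    exact (Complex.ofReal_injective h3).symm
  have hterm : ∀ i ∈ P, ∀ j ∈ P, c i * c j * ‖inner ℂ (x i) (x j)‖ ^ 2 =
      (c i * c j + (c i * n1 i) * (c j * n1 j) + (c i * n2 i) * (c j * n2 j)
        + (c i * n3 i) * (c j * n3 j)) / 2 := by
    intro i hi j hj
    rw [← Complex.normSq_eq_norm_sq, hinner i hi j hj, bloch, hunit i hi, hunit j hj]
    simp only [hn1, hn2, hn3]
    ring
  have hsum : ∑ i ∈ P, ∑ j ∈ P, c i * c j * ‖inner ℂ (x i) (x j)‖ ^ 2 =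
      ((∑ i ∈ P, c i) ^ 2 + (∑ i ∈ P, c i * n1 i) ^ 2 + (∑ i ∈ P, c i * n2 i) ^ 2
        + (∑ i ∈ P, c i * n3 i) ^ 2) / 2 := by
    rw [sum_congr rfl (fun i hi => sum_congr rfl (fun j hj => hterm i hi j hj))]
    simp only [← sum_div, sum_add_distrib, ← mul_sum, ← sum_mul]
    ring
  rw [hsum]
  nlinarith [sq_nonneg (∑ i ∈ P, c i * n1 i), sq_nonneg (∑ i ∈ P, c i * n2 i),
    sq_nonneg (∑ i ∈ P, c i * n3 i)]

/-- If members of `B` pairwise share at most one element, sums of a nonnegative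
function over ordered pairs of distinct elements do not overlap. -/
theorem sum_offDiag_le [Fintype ι] [DecidableEq ι] (B : Finset (Finset ι))
    (hB : ∀ P ∈ B, ∀ Q ∈ B, P ≠ Q → (P ∩ Q).card ≤ 1)
    (h : ι × ι → ℝ) (hh : ∀ z, 0 ≤ h z) :
    ∑ P ∈ B, ∑ z ∈ P.offDiag, h z ≤ ∑ z ∈ (univ : Finset ι).offDiag, h z := by
  have hdisj : (B : Set (Finset ι)).PairwiseDisjoint (fun P => P.offDiag) := by
    intro P hP Q hQ hne
    rw [Function.onFun, Finset.disjoint_left]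
    rintro ⟨i, j⟩ h1 h2
    rw [mem_offDiag] at h1 h2
    have h3 := hB P hP Q hQ hne
    rw [Finset.card_le_one] at h3
    exact h1.2.2 (h3 i (mem_inter.2 ⟨h1.1, h2.1⟩) j (mem_inter.2 ⟨h1.2.1, h2.2.1⟩))
  rw [← sum_biUnion hdisj]
  apply sum_le_sum_of_subset_of_nonneg
  · intro z hz
    rw [mem_biUnion] at hz
    obtain ⟨P, _, hz⟩ := hz
    rw [mem_offDiag] at hz ⊢
    exact ⟨mem_univ _, mem_univ _, hz.2.2⟩
  · intro z _ _
    exact hh z

theorem sum_sum_eq_offDiag [DecidableEq ι] (P : Finset ι) (g : ι → ι → ℝ) :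
    ∑ i ∈ P, ∑ j ∈ P, g i j = ∑ z ∈ P.offDiag, g z.1 z.2 + ∑ i ∈ P, g i i := by
  rw [← Finset.sum_product', ← Finset.diag_union_offDiag, Finset.sum_union
    (Finset.disjoint_diag_offDiag P), Finset.sum_diag]
  ring

/-- **Weighted Bojanowski inequality.** -/
theorem weighted_bojanowski [Fintype ι] [DecidableEq ι] [FiniteDimensional ℂ E]
    (n : ℕ) (hn : finrank ℂ E = n + 1)
    (v : ι → E) (hv0 : ∀ i, v i ≠ 0) (hspan : Submodule.span ℂ (Set.range v) = ⊤)
    (c : ι → ℝ) (hc : ∀ i, 0 ≤ c i) (hstab : Semistable c v)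
    (B : Finset (Finset ι))
    (hB : ∀ P ∈ B, ∀ Q ∈ B, P ≠ Q → (P ∩ Q).card ≤ 1)
    (hBL : ∀ P ∈ B, ∃ L : Submodule ℂ E, finrank ℂ L = 2 ∧ ∀ i ∈ P, v i ∈ L) :
    ∑ P ∈ B, ((∑ i ∈ P, c i) ^ 2 / 2 - ∑ i ∈ P, c i ^ 2)
      ≤ (∑ i, c i) ^ 2 / ((n : ℝ) + 1) - ∑ i, c i ^ 2 := by
  have hC : 0 ≤ ∑ j, c j := sum_nonneg (fun i _ => hc i)
  have hn1 : (0 : ℝ) < (n : ℝ) + 1 := by positivity
  apply le_of_forall_pos_le_add
  intro ε hε
  -- choose η
  set η : ℝ := ε / ((∑ j, c j) + 1) with hη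
  have hη0 : 0 < η := div_pos hε (by linarith)
  have hηC : (∑ j, c j) * η ≤ ε := by
    rw [hη, mul_div_assoc', div_le_iff₀ (by linarith)]
    nlinarith
  obtain ⟨T, hT, hnear⟩ := near_min n hn v hv0 hspan c hc hstab η hη0
  have hinj := injective_of_det_ne_zero T hT
  have hTne : ∀ j, T (v j) ≠ 0 := by
    intro j h
    apply hv0 j
    apply hinj
    rw [h, map_zero]
  have hTpos : ∀ j, 0 < ‖T (v j)‖ := fun j => norm_pos_iff.2 (hTne j)
  set x : ι → E := fun i => ((‖T (v i)‖⁻¹ : ℝ) : ℂ) • T (v i) with hx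
  have hx1 : ∀ i, ‖x i‖ = 1 := by
    intro i
    simp only [hx]
    rw [norm_smul, Complex.norm_real, Real.norm_eq_abs, abs_of_pos (inv_pos.2 (hTpos i)),
      inv_mul_cancel₀ (hTpos i).ne']
  have hq : ∀ i j, ‖inner ℂ (x i) (T (v j))‖ ^ 2 / ‖T (v j)‖ ^ 2 = ‖inner ℂ (x i) (x j)‖ ^ 2 := by
    intro i j
    have h1 : inner ℂ (x i) (x j) = ((‖T (v j)‖⁻¹ : ℝ) : ℂ) * inner ℂ (x i) (T (v j)) := by
      simp only [hx]
      rw [inner_smul_right]
    rw [h1, norm_mul, Complex.norm_real, Real.norm_eq_abs, abs_of_pos (inv_pos.2 (hTpos j)),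
      mul_pow, inv_pow]
    field_simp
  set g : ι → ι → ℝ := fun i j => c i * c j * ‖inner ℂ (x i) (x j)‖ ^ 2 with hg
  have hg0 : ∀ i j, 0 ≤ g i j := fun i j =>
    mul_nonneg (mul_nonneg (hc i) (hc j)) (sq_nonneg _)
  have htotal : ∑ i, ∑ j, g i j ≤ (∑ i, c i) ^ 2 / ((n : ℝ) + 1) + ε := by
    have h1 : ∀ i, ∑ j, g i j ≤ c i * ((∑ j, c j) / ((n : ℝ) + 1) + η) := by
      intro i
      have h2 := hnear (x i) (hx1 i)
      have h3 : ∑ j, g i j = c i * ∑ j, c j * (‖inner ℂ (x i) (T (v j))‖ ^ 2 / ‖T (v j)‖ ^ 2) := by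
        rw [mul_sum]
        apply sum_congr rfl
        intro j _
        rw [hq i j]
        simp only [hg]
        ring
      rw [h3]
      exact mul_le_mul_of_nonneg_left h2 (hc i)
    refine (sum_le_sum (fun i _ => h1 i)).trans ?_
    rw [← sum_mul]
    have h4 : (∑ i, c i) * ((∑ j, c j) / ((n : ℝ) + 1) + η) =
        (∑ i, c i) ^ 2 / ((n : ℝ) + 1) + (∑ i, c i) * η := by ring
    rw [h4]
    linarith
  have hdiag : ∀ i, g i i = c i ^ 2 := by
    intro i
    simp only [hg]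
    rw [inner_self_eq_norm_sq_to_K, hx1 i]
    norm_num
    ring
  have hoff : ∑ z ∈ (univ : Finset ι).offDiag, g z.1 z.2 ≤
      (∑ i, c i) ^ 2 / ((n : ℝ) + 1) + ε - ∑ i, c i ^ 2 := by
    have h5 := sum_sum_eq_offDiag (univ : Finset ι) g
    rw [h5] at htotal
    simp only [hdiag] at htotal
    linarith
  have hP : ∀ P ∈ B, (∑ i ∈ P, c i) ^ 2 / 2 - ∑ i ∈ P, c i ^ 2 ≤
      ∑ z ∈ P.offDiag, g z.1 z.2 := by
    intro P hPB
    obtain ⟨L, hL2, hLP⟩ := hBL P hPB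
    have hfin : finrank ℂ (L.map T) = 2 := by
      rw [← (Submodule.equivMapOfInjective T hinj L).finrank_eq, hL2]
    have h6 := plane_bound (L.map T) hfin P x (fun i hi => by
      simp only [hx]
      exact Submodule.smul_mem _ _ (Submodule.mem_map_of_mem (hLP i hi))) (fun i _ => hx1 i) c
    have h7 := sum_sum_eq_offDiag P g
    simp only [hdiag] at h7
    change (∑ i ∈ P, c i) ^ 2 / 2 ≤ ∑ i ∈ P, ∑ j ∈ P, g i j at h6
    rw [h7] at h6
    linarith
  have h8 := sum_offDiag_le B hB (fun z => g z.1 z.2) (fun z => hg0 z.1 z.2)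
  have h9 := sum_le_sum hP
  linarith

end

end Pool.Agent.H87
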