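import Mathlib
import Pool.Agent.H87.Flats

set_option autoImplicit false
set_option linter.unusedSectionVars false

namespace Pool.Agent.H87

open Finset Module

section

variable {ι : Type*} [Fintype ι] [DecidableEq ι] {E : Type*} [AddCommGroup E] [Module ℂ E]

open Classical in
/-- the rank two flat spanned by `i` and `j` -/
noncomputable def fl (v : ι → E) (i j : ι) : Finset ι :=
  univ.filter (fun k => v k ∈ Submodule.span ℂ {v i, v j})

/-- the indices whose vector lies in `W` -/
noncomputable def inW (v : ι → E) (W : Submodule ℂ E) : Finset ι := by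
  classical
  exact univ.filter (fun k => v k ∈ W)

/-- pairwise linear independence -/
def PairIndep (v : ι → E) : Prop := ∀ i j, i ≠ j → LinearIndependent ℂ ![v i, v j]

variable {v : ι → E}

theorem mem_fl {i j k : ι} : k ∈ fl v i j ↔ v k ∈ Submodule.span ℂ {v i, v j} := by
  classical
  simp [fl]

theorem mem_inW {W : Submodule ℂ E} {k : ι} : k ∈ inW v W ↔ v k ∈ W := by
  classical
  simp [inW]

theorem left_mem_fl (i j : ι) : i ∈ fl v i j :=
  mem_fl.2 (Submodule.subset_span (by simp))

theorem right_mem_fl (i j : ι) : j ∈ fl v i j :=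
  mem_fl.2 (Submodule.subset_span (by simp))

theorem finrank_pair (hv : PairIndep v) {i j : ι} (hij : i ≠ j) :
    finrank ℂ (Submodule.span ℂ {v i, v j}) = 2 := by
  have h := finrank_span_eq_card (hv i j hij)
  rw [Fintype.card_fin] at h
  have h2 : Set.range ![v i, v j] = {v i, v j} := by
    simp [Matrix.range_cons, Matrix.range_empty]
    exact Set.pair_comm _ _
  rw [h2] at h
  exact h

theorem span_pair_eq (hv : PairIndep v) {i j k l : ι} (hij : i ≠ j) (hkl : k ≠ l)
    (hk : k ∈ fl v i j) (hl : l ∈ fl v i j) :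
    Submodule.span ℂ {v k, v l} = Submodule.span ℂ {v i, v j} := by
  have hle : Submodule.span ℂ {v k, v l} ≤ Submodule.span ℂ {v i, v j} := by
    rw [Submodule.span_le]
    intro x hx
    rcases hx with rfl | rfl
    · exact mem_fl.1 hk
    · exact mem_fl.1 hl
  have : FiniteDimensional ℂ (Submodule.span ℂ {v i, v j}) :=
    FiniteDimensional.span_of_finite ℂ (Set.toFinite _)
  exact Submodule.eq_of_le_of_finrank_eq hle (by rw [finrank_pair hv hij, finrank_pair hv hkl])

theorem fl_eq (hv : PairIndep v) {i j k l : ι} (hij : i ≠ j) (hkl : k ≠ l)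
    (hk : k ∈ fl v i j) (hl : l ∈ fl v i j) : fl v k l = fl v i j := by
  ext m
  rw [mem_fl, mem_fl, span_pair_eq hv hij hkl hk hl]

/-- the set of all rank two flats -/
noncomputable def flats (v : ι → E) : Finset (Finset ι) :=
  (univ : Finset ι).offDiag.image (fun z => fl v z.1 z.2)

theorem mem_flats {P : Finset ι} : P ∈ flats v ↔ ∃ i j, i ≠ j ∧ fl v i j = P := by
  simp [flats]

theorem eq_fl_of_mem (hv : PairIndep v) {P : Finset ι} (hP : P ∈ flats v) {i j : ι}
    (hij : i ≠ j) (hi : i ∈ P) (hj : j ∈ P) : P = fl v i j := by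
  obtain ⟨k, l, hkl, rfl⟩ := mem_flats.1 hP
  exact (fl_eq hv hkl hij hi hj).symm

theorem flats_inter (hv : PairIndep v) {P Q : Finset ι} (hP : P ∈ flats v) (hQ : Q ∈ flats v)
    (hPQ : P ≠ Q) : (P ∩ Q).card ≤ 1 := by
  rw [Finset.card_le_one]
  intro i hi j hj
  by_contra hij
  rw [mem_inter] at hi hj
  apply hPQ
  rw [eq_fl_of_mem hv hP hij hi.1 hj.1, eq_fl_of_mem hv hQ hij hi.2 hj.2]

/-- a flat through `i ∉ W` and `w ∈ W` meets `W` in `w` only -/
theorem fl_inter_W (hv : PairIndep v) {W : Submodule ℂ E} {i w k : ι} (hi : i ∉ inW v W)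
    (hw : w ∈ inW v W) (hk : k ∈ inW v W) (hk' : k ∈ fl v i w) : k = w := by
  by_contra hne
  have hiw : i ≠ w := by
    rintro rfl
    exact hi hw
  have h1 := span_pair_eq hv hiw hne hk' (right_mem_fl i w)
  apply hi
  rw [mem_inW] at *
  have h2 : v i ∈ Submodule.span ℂ {v k, v w} := by
    rw [h1]
    exact Submodule.subset_span (by simp)
  refine (Submodule.span_le.2 ?_) h2
  intro x hx
  rcases hx with rfl | rfl
  · exact hk
  · exact hw

/-- two flats through `i` with different second points outside... -/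
theorem fl_inter_i (hv : PairIndep v) {i w w' k : ι} (hiw : i ≠ w) (hiw' : i ≠ w')
    (hk : k ∈ fl v i w) (hk' : k ∈ fl v i w') (hki : k ≠ i) : fl v i w = fl v i w' := by
  rw [← fl_eq hv hiw hki.symm (left_mem_fl i w) hk, ← fl_eq hv hiw' hki.symm (left_mem_fl i w') hk']

/-- counting pairs from two disjoint sets through flats -/
theorem sum_cross (hv : PairIndep v) (B : Finset (Finset ι)) (hB : B ⊆ flats v)
    (S T : Finset ι) (hST : Disjoint S T) (hcov : ∀ i ∈ S, ∀ j ∈ T, fl v i j ∈ B) :
    ∑ P ∈ B, (P ∩ S).card * (P ∩ T).card = S.card * T.card := by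
  rw [← Finset.card_product]
  have h1 : S ×ˢ T = B.biUnion (fun P => (P ∩ S) ×ˢ (P ∩ T)) := by
    ext ⟨i, j⟩
    simp only [mem_product, mem_biUnion, mem_inter]
    constructor
    · rintro ⟨hi, hj⟩
      exact ⟨fl v i j, hcov i hi j hj, ⟨left_mem_fl i j, hi⟩, ⟨right_mem_fl i j, hj⟩⟩
    · rintro ⟨P, _, ⟨_, hi⟩, ⟨_, hj⟩⟩
      exact ⟨hi, hj⟩
  rw [h1, Finset.card_biUnion]
  · apply sum_congr rfl
    intro P _
    rw [Finset.card_product]
  · intro P hP Q hQ hne
    rw [Function.onFun, Finset.disjoint_left]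
    rintro ⟨i, j⟩ h2 h3
    simp only [mem_product, mem_inter] at h2 h3
    have hij : i ≠ j := by
      rintro rfl
      exact Finset.disjoint_left.1 hST h2.1.2 h2.2.2
    apply hne
    rw [eq_fl_of_mem hv (hB hP) hij h2.1.1 h2.2.1, eq_fl_of_mem hv (hB hQ) hij h3.1.1 h3.2.1]

end

end Pool.Agent.H87
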