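import Mathlib
import Pool.Agent.H87.LinSpace

set_option autoImplicit false
set_option linter.unusedSectionVars false

namespace Pool.Agent.H87

open Finset Module

section

variable {ι : Type*} [Fintype ι] [DecidableEq ι] {E : Type*} [AddCommGroup E] [Module ℂ E]
variable {p : ℕ} [hp : Fact p.Prime]

/-- The local conditions at rank two flats satisfied by a degree one Aomoto cocycle. -/
def LocalCond (v : ι → E) (τ : ι → ZMod p) : Prop :=
  ∀ i j, i ≠ j → ∀ k ∈ fl v i j, ((fl v i j).card : ZMod p) * τ k = ∑ l ∈ fl v i j, τ l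

/-- flats on which `τ` is not constant -/
noncomputable def base (v : ι → E) (τ : ι → ZMod p) : Finset (Finset ι) :=
  (flats v).filter (fun P => ∃ i ∈ P, ∃ j ∈ P, τ i ≠ τ j)

variable {v : ι → E} {τ : ι → ZMod p}

theorem LocalCond.sub (h : LocalCond v τ) (c : ZMod p) : LocalCond v (fun i => τ i - c) := by
  intro i j hij k hk
  have h1 := h i j hij k hk
  rw [mul_sub, h1, sum_sub_distrib, sum_const, nsmul_eq_mul]

theorem mem_base {P : Finset ι} :
    P ∈ base v τ ↔ P ∈ flats v ∧ ∃ i ∈ P, ∃ j ∈ P, τ i ≠ τ j := by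
  simp [base]

theorem base_subset : base v τ ⊆ flats v := Finset.filter_subset _ _

theorem base_sub (c : ZMod p) : base v (fun i => τ i - c) = base v τ := by
  ext P
  simp [mem_base, sub_left_inj]

theorem fl_mem_base {i j : ι} (h : τ i ≠ τ j) : fl v i j ∈ base v τ := by
  rw [mem_base]
  refine ⟨mem_flats.2 ⟨i, j, ?_, rfl⟩, i, left_mem_fl i j, j, right_mem_fl i j, h⟩
  rintro rfl
  exact h rfl

theorem base_card_zmod (hl : LocalCond v τ) {P : Finset ι} (hP : P ∈ base v τ) :
    (P.card : ZMod p) = 0 := by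
  obtain ⟨hPf, i, hi, j, hj, hij⟩ := mem_base.1 hP
  obtain ⟨k, l, hkl, rfl⟩ := mem_flats.1 hPf
  have h1 := hl k l hkl i hi
  have h2 := hl k l hkl j hj
  have h3 : ((fl v k l).card : ZMod p) * (τ i - τ j) = 0 := by
    rw [mul_sub, h1, h2, sub_self]
  rcases mul_eq_zero.1 h3 with h | h
  · exact h
  · exact absurd (sub_eq_zero.1 h) hij

theorem base_sum (hl : LocalCond v τ) {P : Finset ι} (hP : P ∈ base v τ) :
    ∑ l ∈ P, τ l = 0 := by
  have h0 := base_card_zmod hl hP
  obtain ⟨hPf, i, hi, j, hj, hij⟩ := mem_base.1 hP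
  obtain ⟨k, l, hkl, rfl⟩ := mem_flats.1 hPf
  rw [← hl k l hkl i hi, h0, zero_mul]

theorem base_card_ge (hl : LocalCond v τ) {P : Finset ι} (hP : P ∈ base v τ) :
    p ≤ P.card := by
  have h0 := base_card_zmod hl hP
  rw [ZMod.natCast_eq_zero_iff] at h0
  obtain ⟨_, i, hi, _⟩ := mem_base.1 hP
  exact Nat.le_of_dvd (Finset.card_pos.2 ⟨i, hi⟩) h0

/-- In a base flat at least two members have colour different from any given colour. -/
theorem base_two (hl : LocalCond v τ) (c : ZMod p) {P : Finset ι} (hP : P ∈ base v τ) :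
    2 ≤ (P.filter (fun k => τ k ≠ c)).card := by
  by_contra hlt
  push Not at hlt
  have hc0 := base_card_zmod hl hP
  have hs := base_sum hl hP
  have h1 : ∑ k ∈ P, (τ k - c) = 0 := by
    rw [sum_sub_distrib, hs, sum_const, nsmul_eq_mul, hc0]
    simp
  have h2 : ∑ k ∈ P.filter (fun k => τ k ≠ c), (τ k - c) = 0 := by
    rw [← h1]
    apply Finset.sum_subset (Finset.filter_subset _ _)
    intro k hk hk'
    rw [mem_filter, not_and, not_not] at hk'
    rw [hk' hk, sub_self]
  obtain ⟨_, i, hi, j, hj, hij⟩ := mem_base.1 hP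
  have hne : (P.filter (fun k => τ k ≠ c)).Nonempty := by
    by_cases hic : τ i = c
    · refine ⟨j, mem_filter.2 ⟨hj, ?_⟩⟩
      rintro h
      exact hij (hic.trans h.symm)
    · exact ⟨i, mem_filter.2 ⟨hi, hic⟩⟩
  have hcard : (P.filter (fun k => τ k ≠ c)).card = 1 := by
    have := Finset.card_pos.2 hne
    omega
  obtain ⟨k, hk⟩ := Finset.card_eq_one.1 hcard
  rw [hk, sum_singleton, sub_eq_zero] at h2
  have hk2 : k ∈ P.filter (fun k => τ k ≠ c) := by rw [hk]; simp
  exact (mem_filter.1 hk2).2 h2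

/-- Lower bound for the number of vectors off a subspace. -/
theorem off_count (hv : PairIndep v) (hl : LocalCond v τ) {W : Submodule ℂ E} {i : ι}
    (hi : i ∉ inW v W) :
    (inW v W).card + 1 + (p - 2) * ((inW v W).filter (fun w => τ w ≠ τ i)).card
      ≤ Fintype.card ι := by
  set Y := (inW v W).filter (fun w => τ w ≠ τ i) with hY
  set F : ι → Finset ι := fun w => ((fl v i w).erase i).erase w with hF
  have hYW : ∀ w ∈ Y, w ∈ inW v W := fun w hw => (mem_filter.1 hw).1
  have hne : ∀ w ∈ Y, i ≠ w := by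
    intro w hw h
    apply hi
    rw [h]
    exact hYW w hw
  have hFcard : ∀ w ∈ Y, p - 2 ≤ (F w).card := by
    intro w hw
    have hb : fl v i w ∈ base v τ := fl_mem_base (fun h => (mem_filter.1 hw).2 h.symm)
    have h1 := base_card_ge hl hb
    simp only [hF]
    rw [Finset.card_erase_of_mem (mem_erase.2 ⟨(hne w hw).symm, right_mem_fl i w⟩),
      Finset.card_erase_of_mem (left_mem_fl i w)]
    omega
  have hdisj : (Y : Set ι).PairwiseDisjoint F := by
    intro w hw w' hw' hww'
    rw [Function.onFun, Finset.disjoint_left]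
    intro k hk hk'
    simp only [hF, mem_erase] at hk hk'
    have h1 := fl_inter_i hv (hne w hw) (hne w' hw') hk.2.2 hk'.2.2 hk.2.1
    apply hww'
    apply fl_inter_W hv hi (hYW w' hw') (hYW w hw)
    rw [← h1]
    exact right_mem_fl i w
  have hbi : (p - 2) * Y.card ≤ (Y.biUnion F).card := by
    rw [Finset.card_biUnion hdisj, mul_comm, ← smul_eq_mul, ← Finset.sum_const]
    exact sum_le_sum hFcard
  have hsub : Disjoint (insert i (inW v W)) (Y.biUnion F) := by
    rw [Finset.disjoint_left]
    intro k hk hk'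
    rw [mem_biUnion] at hk'
    obtain ⟨w, hw, hkw⟩ := hk'
    simp only [hF, mem_erase] at hkw
    rcases mem_insert.1 hk with rfl | hkW
    · exact hkw.2.1 rfl
    · exact hkw.1 (fl_inter_W hv hi (hYW w hw) hkW hkw.2.2)
  have hcard : (insert i (inW v W) ∪ Y.biUnion F).card ≤ Fintype.card ι := by
    exact Finset.card_le_univ _
  rw [Finset.card_union_of_disjoint hsub, Finset.card_insert_of_notMem hi] at hcard
  omega

/-- If `τ` is not constant, then the vectors off a proper subspace carry two colours. -/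
theorem off_two_colours (hv : PairIndep v) (hl : LocalCond v τ)
    (hτ : ∃ i j, τ i ≠ τ j) {W : Submodule ℂ E} {i : ι} (hi : i ∉ inW v W) :
    ∃ j, j ∉ inW v W ∧ τ j ≠ τ i := by
  by_contra hcon
  push Not at hcon
  -- all off W have colour τ i
  have hexw : ∃ w, τ w ≠ τ i := by
    by_contra h
    push Not at h
    obtain ⟨a, b, hab⟩ := hτ
    exact hab ((h a).trans (h b).symm)
  obtain ⟨w, hw⟩ := hexw
  have hwW : w ∈ inW v W := by
    by_contra h
    exact hw (hcon w h)
  have hb : fl v i w ∈ base v τ := fl_mem_base (fun h => hw h.symm)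
  have h2 := base_two hl (τ i) hb
  have hsub : (fl v i w).filter (fun k => τ k ≠ τ i) ⊆ {w} := by
    intro k hk
    rw [mem_filter] at hk
    rw [mem_singleton]
    have hkW : k ∈ inW v W := by
      by_contra h
      exact hk.2 (hcon k h)
    exact fl_inter_W hv hi hwW hkW hk.1
  have := Finset.card_le_card hsub
  rw [card_singleton] at this
  omega

/-- A proper subspace contains at most `2 (n - 1) / p` of the vectors. -/
theorem inW_card_le (hv : PairIndep v) (hl : LocalCond v τ) (hp2 : 2 ≤ p)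
    (hτ : ∃ i j, τ i ≠ τ j) {W : Submodule ℂ E} {i : ι} (hi : i ∉ inW v W) :
    p * (inW v W).card + 2 ≤ 2 * Fintype.card ι := by
  obtain ⟨j, hj, hij⟩ := off_two_colours hv hl hτ hi
  have h1 := off_count hv hl hi
  have h2 := off_count hv hl hj
  have h3 : (inW v W).card ≤ ((inW v W).filter (fun w => τ w ≠ τ i)).card
      + ((inW v W).filter (fun w => τ w ≠ τ j)).card := by
    rw [← Finset.card_filter_add_card_filter_not (s := inW v W) (fun w => τ w ≠ τ i)]
    apply Nat.add_le_add_left
    apply Finset.card_le_card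
    intro w hw
    rw [mem_filter] at hw ⊢
    refine ⟨hw.1, ?_⟩
    have := not_not.1 hw.2
    rw [this]
    exact hij.symm
  obtain ⟨q, rfl⟩ : ∃ q, p = q + 2 := ⟨p - 2, by omega⟩
  simp only [Nat.add_sub_cancel] at h1 h2
  nlinarith

end

end Pool.Agent.H87
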