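import Mathlib
import Pool.Agent.H87.Colour

set_option autoImplicit false
set_option linter.unusedSectionVars false

namespace Pool.Agent.H87

open Finset Module

section

variable {ι : Type*} [Fintype ι] [DecidableEq ι] {E : Type*} [AddCommGroup E] [Module ℂ E]
variable {p : ℕ} [hp : Fact p.Prime]
variable {v : ι → E} {τ : ι → ZMod p}

theorem wt_eq (c : ι → ℝ) (W : Submodule ℂ E) : wt c v W = ∑ i ∈ inW v W, c i := by
  classical
  unfold wt inW
  rw [Finset.sum_filter]

theorem PairIndep.ne_zero (hv : PairIndep v) {i j : ι} (hij : i ≠ j) : v i ≠ 0 := by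
  have := (hv i j hij).ne_zero 0
  simpa using this

theorem inW_card_le_one [FiniteDimensional ℂ E] (hv : PairIndep v) {W : Submodule ℂ E}
    (hW : finrank ℂ W ≤ 1) : (inW v W).card ≤ 1 := by
  rw [Finset.card_le_one]
  intro i hi j hj
  by_contra hij
  rw [mem_inW] at hi hj
  have h1 : Submodule.span ℂ {v i, v j} ≤ W := by
    rw [Submodule.span_le]
    intro x hx
    rcases hx with rfl | rfl
    · exact hi
    · exact hj
  have h2 := Submodule.finrank_mono h1
  rw [finrank_pair hv hij] at h2
  omega

theorem inW_card_zero [FiniteDimensional ℂ E] (hv0 : ∀ i, v i ≠ 0) {W : Submodule ℂ E}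
    (hW : finrank ℂ W = 0) : inW v W = ∅ := by
  rw [Submodule.finrank_eq_zero] at hW
  rw [Finset.eq_empty_iff_forall_notMem]
  intro i hi
  rw [mem_inW, hW, Submodule.mem_bot] at hi
  exact hv0 i hi

theorem exists_off (hspan : Submodule.span ℂ (Set.range v) = ⊤) {W : Submodule ℂ E}
    (hW : W ≠ ⊤) : ∃ i, i ∉ inW v W := by
  by_contra h
  push Not at h
  apply hW
  rw [eq_top_iff, ← hspan, Submodule.span_le]
  rintro _ ⟨i, rfl⟩
  exact mem_inW.1 (h i)

theorem inW_top : inW v (⊤ : Submodule ℂ E) = univ := by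
  ext i
  simp [mem_inW]

theorem finrank_le_card [FiniteDimensional ℂ E] (hspan : Submodule.span ℂ (Set.range v) = ⊤) :
    finrank ℂ E ≤ Fintype.card ι := by
  have h := finrank_range_le_card (R := ℂ) v
  rw [Set.finrank, hspan, finrank_top] at h
  exact h

theorem semistable_one [FiniteDimensional ℂ E] (hv : PairIndep v) (hv0 : ∀ i, v i ≠ 0)
    (hl : LocalCond v τ) (hτ : ∃ i j, τ i ≠ τ j)
    (hspan : Submodule.span ℂ (Set.range v) = ⊤)
    (hr : finrank ℂ E ≤ p) : Semistable (fun _ => (1 : ℝ)) v := by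
  have hp2 : 2 ≤ p := hp.out.two_le
  intro W
  rw [wt_eq]
  simp only [sum_const, nsmul_eq_mul, mul_one]
  by_cases hW : W = ⊤
  · subst hW
    rw [inW_top, finrank_top]
  · obtain ⟨i, hi⟩ := exists_off hspan hW
    have h1 := inW_card_le hv hl hp2 hτ hi
    have h2 := finrank_le_card hspan
    rcases Nat.lt_or_ge (finrank ℂ W) 2 with h | h
    · rcases Nat.lt_or_ge (finrank ℂ W) 1 with h' | h'
      · rw [inW_card_zero hv0 (by omega)]
        simp only [Finset.card_empty, Nat.cast_zero, mul_zero]
        positivity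
      · have h3 : finrank ℂ W = 1 := by omega
        have h4 := inW_card_le_one hv (v := v) (W := W) (by omega)
        rw [h3]
        have h5 : (finrank ℂ E) * (inW v W).card ≤ 1 * (univ : Finset ι).card := by
          rw [Finset.card_univ]
          nlinarith
        exact_mod_cast h5
    · have h5 : (finrank ℂ E) * (inW v W).card ≤ finrank ℂ W * (univ : Finset ι).card := by
        rw [Finset.card_univ]
        have h6 : finrank ℂ E * (inW v W).card ≤ p * (inW v W).card :=
          Nat.mul_le_mul_right _ hr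
        have h7 : 2 * Fintype.card ι ≤ finrank ℂ W * Fintype.card ι :=
          Nat.mul_le_mul_right _ h
        omega
      exact_mod_cast h5

/-- weights in the majority case -/
noncomputable def cw (τ : ι → ZMod p) (u : ℝ) : ι → ℝ := fun i => if τ i = 0 then 1 else u

theorem sum_cw (P : Finset ι) (u : ℝ) : ∑ i ∈ P, cw τ u i =
    ((P.filter (fun k => τ k = 0)).card : ℝ) + u * ((P.filter (fun k => τ k ≠ 0)).card : ℝ) := by
  unfold cw
  rw [Finset.sum_ite]
  simp [mul_comm]

theorem sum_cw_sq (P : Finset ι) (u : ℝ) : ∑ i ∈ P, cw τ u i ^ 2 =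
    ((P.filter (fun k => τ k = 0)).card : ℝ) + u ^ 2 * ((P.filter (fun k => τ k ≠ 0)).card : ℝ) := by
  unfold cw
  simp only [ite_pow, one_pow]
  rw [Finset.sum_ite]
  simp [mul_comm]

/-- In the majority case a proper subspace contains at most half of the minority vectors. -/
theorem minority_half (hv : PairIndep v) (hl : LocalCond v τ) (hp5 : 5 ≤ p)
    (hτ : ∃ i j, τ i ≠ τ j)
    (hmaj : Fintype.card ι < 2 * ((univ : Finset ι).filter (fun k => τ k = 0)).card)
    {W : Submodule ℂ E} {i₀ : ι} (hi₀ : i₀ ∉ inW v W) :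
    2 * ((inW v W).filter (fun k => τ k ≠ 0)).card
      ≤ ((univ : Finset ι).filter (fun k => τ k ≠ 0)).card := by
  have h1 := inW_card_le hv hl (by omega) hτ hi₀
  -- there is i off W of colour 0
  have hex : ∃ i, i ∉ inW v W ∧ τ i = 0 := by
    by_contra hcon
    push Not at hcon
    have hsub : (univ : Finset ι).filter (fun k => τ k = 0) ⊆ inW v W := by
      intro k hk
      rw [mem_filter] at hk
      by_contra hk'
      exact hcon k hk' hk.2
    have h2 := Finset.card_le_card hsub
    nlinarith
  obtain ⟨i, hi, hi0⟩ := hex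
  set Y := (inW v W).filter (fun k => τ k ≠ 0) with hY
  set U := (univ : Finset ι).filter (fun k => τ k ≠ 0) with hU
  have hYW : ∀ w ∈ Y, w ∈ inW v W := fun w hw => (mem_filter.1 hw).1
  have hne : ∀ w ∈ Y, i ≠ w := by
    intro w hw h
    apply hi
    rw [h]
    exact hYW w hw
  have hex2 : ∀ w ∈ Y, ∃ w', w' ∈ fl v i w ∧ τ w' ≠ 0 ∧ w' ≠ w := by
    intro w hw
    have hb : fl v i w ∈ base v τ := fl_mem_base (by rw [hi0]; exact (mem_filter.1 hw).2.symm)
    have h2 := base_two hl 0 hb
    by_contra hcon
    push Not at hcon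
    have hsub : (fl v i w).filter (fun k => τ k ≠ 0) ⊆ {w} := by
      intro k hk
      rw [mem_filter] at hk
      rw [mem_singleton]
      exact hcon k hk.1 hk.2
    have := Finset.card_le_card hsub
    rw [card_singleton] at this
    omega
  choose! g hg using hex2
  have hinj : Set.InjOn g Y := by
    intro w hw w' hw' heq
    have hw1 := hg w hw
    have hw2 := hg w' hw'
    rw [← heq] at hw2
    have hgi : g w ≠ i := by
      intro h
      apply hw1.2.1
      rw [h, hi0]
    have h3 := fl_inter_i hv (hne w hw) (hne w' hw') hw1.1 hw2.1 hgi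
    apply fl_inter_W hv hi (hYW w' hw') (hYW w hw)
    rw [← h3]
    exact right_mem_fl i w
  have hmaps : ∀ w ∈ Y, g w ∈ U \ Y := by
    intro w hw
    have hw1 := hg w hw
    rw [mem_sdiff]
    refine ⟨mem_filter.2 ⟨mem_univ _, hw1.2.1⟩, ?_⟩
    intro h
    exact hw1.2.2 (fl_inter_W hv hi (hYW w hw) (hYW _ h) hw1.1)
  have h4 : Y.card ≤ (U \ Y).card := Finset.card_le_card_of_injOn g hmaps hinj
  have hYU : Y ⊆ U := by
    intro k hk
    exact mem_filter.2 ⟨mem_univ _, (mem_filter.1 hk).2⟩
  rw [Finset.card_sdiff_of_subset hYU] at h4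
  have := Finset.card_le_card hYU
  omega

theorem card_split (P : Finset ι) : (P.filter (fun k => τ k = 0)).card
    + (P.filter (fun k => τ k ≠ 0)).card = P.card :=
  Finset.card_filter_add_card_filter_not (s := P) (fun k => τ k = 0)

theorem semistable_cw [FiniteDimensional ℂ E] (hv : PairIndep v) (hv0 : ∀ i, v i ≠ 0)
    (hl : LocalCond v τ) (hτ : ∃ i j, τ i ≠ τ j)
    (hspan : Submodule.span ℂ (Set.range v) = ⊤) (hp5 : 5 ≤ p)
    (hr3 : 3 ≤ finrank ℂ E) (hr : finrank ℂ E ≤ 4)
    (hmaj : Fintype.card ι < 2 * ((univ : Finset ι).filter (fun k => τ k = 0)).card)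
    (u : ℝ) (hu : 1 ≤ u) : Semistable (cw τ u) v := by
  have hn2 : ∀ {W : Submodule ℂ E} {i₀ : ι}, i₀ ∉ inW v W →
      2 * ((inW v W).filter (fun k => τ k ≠ 0)).card
      ≤ ((univ : Finset ι).filter (fun k => τ k ≠ 0)).card :=
    fun h => minority_half hv hl hp5 hτ hmaj h
  -- the minority has at least four elements
  have hU4 : 4 ≤ ((univ : Finset ι).filter (fun k => τ k ≠ 0)).card := by
    obtain ⟨i, j, hij⟩ := hτ
    have hne : i ≠ j := by
      rintro rfl
      exact hij rfl
    have hWne : Submodule.span ℂ {v i, v j} ≠ ⊤ := by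
      intro h
      have h1 := finrank_pair hv hne
      rw [h, finrank_top] at h1
      omega
    obtain ⟨i₀, hi₀⟩ := exists_off hspan hWne
    have h1 := hn2 hi₀
    have h2 := base_two hl 0 (fl_mem_base hij : fl v i j ∈ base v τ)
    have h3 : fl v i j = inW v (Submodule.span ℂ {v i, v j}) := by
      ext k
      rw [mem_fl, mem_inW]
    rw [h3] at h2
    omega
  intro W
  rw [wt_eq, sum_cw, sum_cw]
  by_cases hW : W = ⊤
  · subst hW
    rw [inW_top, finrank_top]
  · obtain ⟨i, hi⟩ := exists_off hspan hW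
    have h1 := inW_card_le hv hl (by omega) hτ hi
    have h2 := hn2 hi
    have h3 := card_split (τ := τ) (inW v W)
    have h4 := card_split (τ := τ) (univ : Finset ι)
    rw [Finset.card_univ] at h4
    set a := ((inW v W).filter (fun k => τ k = 0)).card
    set b := ((inW v W).filter (fun k => τ k ≠ 0)).card
    set n0 := ((univ : Finset ι).filter (fun k => τ k = 0)).card
    set n1 := ((univ : Finset ι).filter (fun k => τ k ≠ 0)).card
    set r := finrank ℂ E
    have hn0 : (0 : ℝ) ≤ n0 := Nat.cast_nonneg _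
    have hn1 : (4 : ℝ) ≤ n1 := by exact_mod_cast hU4
    have hrr : (r : ℝ) ≤ 4 := by exact_mod_cast hr
    have hr0 : (0 : ℝ) ≤ r := Nat.cast_nonneg _
    rcases Nat.lt_or_ge (finrank ℂ W) 2 with h | h
    · rcases Nat.lt_or_ge (finrank ℂ W) 1 with h' | h'
      · have h5 := inW_card_zero hv0 (v := v) (W := W) (by omega)
        have h6 : a + b = 0 := by rw [h3, h5]; rfl
        have ha : a = 0 := by omega
        have hb : b = 0 := by omega
        have h7 : finrank ℂ W = 0 := by omega
        rw [ha, hb, h7]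
        simp
      · have h5 : finrank ℂ W = 1 := by omega
        have h6 := inW_card_le_one hv (v := v) (W := W) (by omega)
        have h7 : a + b ≤ 1 := by omega
        rw [h5]
        have h8 : (a : ℝ) + b ≤ 1 := by exact_mod_cast h7
        have ha : (0 : ℝ) ≤ a := Nat.cast_nonneg _
        have hb : (0 : ℝ) ≤ b := Nat.cast_nonneg _
        have h9 : (a : ℝ) + u * b ≤ u := by nlinarith
        have h10 : (r : ℝ) * (a + u * b) ≤ 4 * u := by
          have : (0 : ℝ) ≤ a + u * b := by positivity
          nlinarith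
        push_cast
        nlinarith
    · have h5 : (r : ℝ) * (a + b) ≤ 2 * (n0 + n1) := by
        have h6 : r * (a + b) ≤ 2 * (n0 + n1) := by
          rw [h3, h4]
          have h7 : r * (inW v W).card ≤ p * (inW v W).card :=
            Nat.mul_le_mul_right _ (by omega)
          omega
        exact_mod_cast h6
      have h6 : (r : ℝ) * b ≤ 2 * n1 := by
        have h7 : r * b ≤ 2 * n1 := by
          have : r * b ≤ 4 * b := Nat.mul_le_mul_right _ hr
          omega
        exact_mod_cast h7
      have h7 : (2 : ℝ) ≤ finrank ℂ W := by exact_mod_cast h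
      have h8 : (r : ℝ) * (a + u * b) ≤ 2 * (n0 + u * n1) := by nlinarith
      have h9 : (0 : ℝ) ≤ n0 + u * n1 := by positivity
      nlinarith

end

end Pool.Agent.H87
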