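import Mathlib
import Pool.Agent.H87.Stab

set_option autoImplicit false
set_option linter.unusedSectionVars false

namespace Pool.Agent.H87

open Finset Module

section

variable {ι : Type*} [Fintype ι] [DecidableEq ι] {E : Type*} [AddCommGroup E] [Module ℂ E]
variable {p : ℕ} [hp : Fact p.Prime]
variable {v : ι → E} {τ : ι → ZMod p}

theorem real_ineq {A B x y : ℝ} (hA0 : 0 ≤ A) (hA : A < x ^ 2) (hx : 0 ≤ x) (hxy : x ≤ y)
    (hAB : (x * y) ^ 2 ≤ A * B) : x ^ 2 + y ^ 2 ≤ A + B := by
  have hx0 : 0 < x ^ 2 := lt_of_le_of_lt hA0 hA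
  have hx1 : 0 < x := by nlinarith
  have hApos : 0 < A := by
    rcases hA0.lt_or_eq with h | h
    · exact h
    · rw [← h, zero_mul] at hAB
      have : 0 < (x * y) ^ 2 := by
        have : 0 < y := lt_of_lt_of_le hx1 hxy
        positivity
      linarith
  have hxy2 : x ^ 2 ≤ y ^ 2 := by nlinarith
  have h1 : 0 ≤ (x ^ 2 - A) * (y ^ 2 - A) := mul_nonneg (by linarith) (by linarith)
  have h2 : A * (x ^ 2 + y ^ 2) ≤ A * (A + B) := by nlinarith
  exact le_of_mul_le_mul_left h2 hApos

/-- If no colour has a majority, the squares of the sizes of the base flats add up to at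
least `n ^ 2`. -/
theorem sum_sq_ge (hv : PairIndep v)
    (hmaj : ∀ c : ZMod p, 2 * ((univ : Finset ι).filter (fun k => τ k = c)).card
      ≤ Fintype.card ι) :
    ((Fintype.card ι : ℕ) : ℝ) ^ 2 ≤ ∑ P ∈ base v τ, (P.card : ℝ) ^ 2 := by
  set cl : ZMod p → Finset ι := fun c => (univ : Finset ι).filter (fun k => τ k = c) with hcl
  have hcross : ∀ c d : ZMod p, c ≠ d →
      ∑ P ∈ base v τ, (P ∩ cl c).card * (P ∩ cl d).card = (cl c).card * (cl d).card := by
    intro c d hcd
    apply sum_cross hv _ base_subset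
    · rw [Finset.disjoint_left]
      intro k hk hk'
      simp only [hcl, mem_filter] at hk hk'
      exact hcd (hk.2.symm.trans hk'.2)
    · intro i hi j hj
      simp only [hcl, mem_filter] at hi hj
      apply fl_mem_base
      rw [hi.2, hj.2]
      exact hcd
  by_cases hall : ∀ c : ZMod p, (cl c).card ^ 2 ≤ ∑ P ∈ base v τ, (P ∩ cl c).card ^ 2
  · have hPc : ∀ P : Finset ι, P.card = ∑ c : ZMod p, (P ∩ cl c).card := by
      intro P
      have h1 := Finset.card_eq_sum_card_fiberwise (s := P) (t := (univ : Finset (ZMod p)))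
        (f := τ) (fun i _ => by simp)
      rw [h1]
      apply sum_congr rfl
      intro c _
      congr 1
      ext k
      simp [hcl]
    have hn : Fintype.card ι = ∑ c : ZMod p, (cl c).card := by
      have h1 := hPc univ
      rw [Finset.card_univ] at h1
      simpa using h1
    have hN : (Fintype.card ι) ^ 2 ≤ ∑ P ∈ base v τ, P.card ^ 2 := by
      have h2 : ∑ P ∈ base v τ, P.card ^ 2 =
          ∑ c : ZMod p, ∑ d : ZMod p, ∑ P ∈ base v τ, (P ∩ cl c).card * (P ∩ cl d).card := by
        have h3 : ∀ P ∈ base v τ, P.card ^ 2 =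
            ∑ c : ZMod p, ∑ d : ZMod p, (P ∩ cl c).card * (P ∩ cl d).card := by
          intro P _
          rw [hPc P, sq, Finset.sum_mul_sum]
        rw [sum_congr rfl h3, Finset.sum_comm]
        apply sum_congr rfl
        intro c _
        rw [Finset.sum_comm]
      rw [h2, hn, sq, Finset.sum_mul_sum]
      apply sum_le_sum
      intro c _
      apply sum_le_sum
      intro d _
      by_cases hcd : c = d
      · subst hcd
        have := hall c
        simpa [sq] using this
      · rw [hcross c d hcd]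
    exact_mod_cast hN
  · push Not at hall
    obtain ⟨c, hc⟩ := hall
    set S := cl c with hS
    set T := (univ : Finset ι) \ S with hT
    have hST : S.card + T.card = Fintype.card ι := by
      rw [hT, Finset.card_sdiff_of_subset (Finset.subset_univ _), Finset.card_univ]
      have := Finset.card_le_univ S
      omega
    have hle : S.card ≤ T.card := by
      have := hmaj c
      simp only [hS, hcl] at hST ⊢
      omega
    have hcr : ∑ P ∈ base v τ, (P ∩ S).card * (P ∩ T).card = S.card * T.card := by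
      apply sum_cross hv _ base_subset
      · rw [hT]
        exact Finset.disjoint_sdiff
      · intro i hi j hj
        apply fl_mem_base
        simp only [hT, hS, hcl, mem_sdiff, mem_filter, mem_univ, true_and] at hi hj
        rw [hi]
        exact fun h => hj h.symm
    have hPsplit : ∀ P : Finset ι, P.card = (P ∩ S).card + (P ∩ T).card := by
      intro P
      rw [hT, ← Finset.card_union_of_disjoint]
      · congr 1
        ext k
        simp only [mem_union, mem_inter, mem_sdiff, mem_univ, true_and]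
        tauto
      · rw [Finset.disjoint_left]
        intro k hk hk'
        simp only [mem_inter, mem_sdiff, mem_univ, true_and] at hk hk'
        exact hk'.2 hk.2
    set A : ℝ := ∑ P ∈ base v τ, ((P ∩ S).card : ℝ) ^ 2 with hA
    set B : ℝ := ∑ P ∈ base v τ, ((P ∩ T).card : ℝ) ^ 2 with hB
    have hcrR : ∑ P ∈ base v τ, ((P ∩ S).card : ℝ) * ((P ∩ T).card : ℝ)
        = (S.card : ℝ) * (T.card : ℝ) := by exact_mod_cast hcr
    have hCS : ((S.card : ℝ) * (T.card : ℝ)) ^ 2 ≤ A * B := by
      rw [← hcrR]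
      exact Finset.sum_mul_sq_le_sq_mul_sq _ _ _
    have hA0 : 0 ≤ A := sum_nonneg (fun _ _ => sq_nonneg _)
    have hAlt : A < (S.card : ℝ) ^ 2 := by
      rw [hA]
      exact_mod_cast hc
    have hineq := real_ineq hA0 hAlt (Nat.cast_nonneg _) (by exact_mod_cast hle) hCS
    have hsum : ∑ P ∈ base v τ, (P.card : ℝ) ^ 2 = A + 2 * ((S.card : ℝ) * (T.card : ℝ)) + B := by
      rw [← hcrR, hA, hB, mul_sum, ← sum_add_distrib, ← sum_add_distrib]
      apply sum_congr rfl
      intro P _
      rw [hPsplit P]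
      push_cast
      ring
    rw [hsum, ← hST]
    push_cast
    nlinarith

/-- pair weight used to count small base flats -/
noncomputable def pw (τ : ι → ZMod p) (i j : ι) : ℝ :=
  if τ i ≠ 0 ∧ τ j ≠ 0 then
    1 + (if τ j = -τ i then 1 else 0) - (if τ j = τ i then 1 else 0)
  else 0

theorem two_ne {x : ZMod p} (hp5 : 5 ≤ p) (hx : x ≠ 0) : x + x ≠ 0 := by
  intro h
  have h2 : (2 : ZMod p) * x = 0 := by rw [two_mul]; exact h
  rcases mul_eq_zero.1 h2 with h3 | h3
  · have h4 : ((2 : ℕ) : ZMod p) = 0 := by exact_mod_cast h3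
    rw [ZMod.natCast_eq_zero_iff] at h4
    have := Nat.le_of_dvd (by norm_num) h4
    omega
  · exact hx h3

theorem three_ne {x : ZMod p} (hp5 : 5 ≤ p) (hx : x ≠ 0) : x + x + x ≠ 0 := by
  intro h
  have h2 : (3 : ZMod p) * x = 0 := by
    have : (3 : ZMod p) * x = x + x + x := by ring
    rw [this, h]
  rcases mul_eq_zero.1 h2 with h3 | h3
  · have h4 : ((3 : ℕ) : ZMod p) = 0 := by exact_mod_cast h3
    rw [ZMod.natCast_eq_zero_iff] at h4
    have := Nat.le_of_dvd (by norm_num) h4
    omega
  · exact hx h3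

theorem ne_neg_self' {x : ZMod p} (hp5 : 5 ≤ p) (hx : x ≠ 0) : x ≠ -x := by
  intro h
  apply two_ne hp5 hx
  nth_rewrite 1 [h]
  simp

theorem pw_nonneg (_hp5 : 5 ≤ p) (i j : ι) : 0 ≤ pw τ i j := by
  unfold pw
  split_ifs <;> norm_num

theorem sum_pw_le : ∑ i : ι, ∑ j : ι, pw τ i j
    ≤ (((univ : Finset ι).filter (fun k => τ k ≠ 0)).card : ℝ) ^ 2 := by
  set U := (univ : Finset ι).filter (fun k => τ k ≠ 0) with hU
  set N : ZMod p → ℝ := fun c => ((U.filter (fun k => τ k = c)).card : ℝ) with hN
  have h1 : ∑ i : ι, ∑ j : ι, pw τ i j = ∑ i ∈ U, ∑ j ∈ U,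
      (1 + (if τ j = -τ i then (1 : ℝ) else 0) - (if τ j = τ i then 1 else 0)) := by
    rw [hU, sum_filter]
    apply sum_congr rfl
    intro i _
    by_cases hi : τ i ≠ 0
    · rw [if_pos hi, sum_filter]
      apply sum_congr rfl
      intro j _
      by_cases hj : τ j ≠ 0
      · rw [if_pos hj]
        unfold pw
        rw [if_pos ⟨hi, hj⟩]
      · rw [if_neg hj]
        unfold pw
        rw [if_neg (fun h => hj h.2)]
    · rw [if_neg hi]
      apply sum_eq_zero
      intro j _
      unfold pw
      rw [if_neg (fun h => hi h.1)]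
  have h2 : ∀ i ∈ U, ∑ j ∈ U,
      (1 + (if τ j = -τ i then (1 : ℝ) else 0) - (if τ j = τ i then 1 else 0))
      = (U.card : ℝ) + N (-τ i) - N (τ i) := by
    intro i _
    rw [sum_sub_distrib, sum_add_distrib, sum_const, nsmul_eq_mul, mul_one]
    simp only [hN, Finset.sum_boole]
  have h3 : ∑ i ∈ U, N (-τ i) = ∑ c : ZMod p, N c * N (-c) := by
    rw [← Finset.sum_fiberwise' U τ (fun c => N (-c))]
    apply sum_congr rfl
    intro c _
    rw [sum_const, nsmul_eq_mul]
  have h4 : ∑ i ∈ U, N (τ i) = ∑ c : ZMod p, N c * N c := by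
    rw [← Finset.sum_fiberwise' U τ (fun c => N c)]
    apply sum_congr rfl
    intro c _
    rw [sum_const, nsmul_eq_mul]
  have h5 : ∑ c : ZMod p, N (-c) * N (-c) = ∑ c : ZMod p, N c * N c :=
    Equiv.sum_comp (Equiv.neg (ZMod p)) (fun c => N c * N c)
  have h6 : 0 ≤ ∑ c : ZMod p, (N c - N (-c)) ^ 2 := sum_nonneg (fun _ _ => sq_nonneg _)
  have h7 : ∑ c : ZMod p, (N c - N (-c)) ^ 2 =
      ∑ c : ZMod p, N c * N c + ∑ c : ZMod p, N (-c) * N (-c) - 2 * ∑ c : ZMod p, N c * N (-c) := by
    rw [mul_sum, ← sum_add_distrib, ← sum_sub_distrib]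
    apply sum_congr rfl
    intro c _
    ring
  rw [h1, sum_congr rfl h2, sum_sub_distrib, sum_add_distrib, sum_const, nsmul_eq_mul, h3, h4]
  nlinarith

/-- the number of base flats with at most three non-majority members -/
theorem small_base (hp5 : 5 ≤ p) (hv : PairIndep v) (hl : LocalCond v τ) :
    4 * (((base v τ).filter (fun P => (P.filter (fun k => τ k ≠ 0)).card ≤ 3)).card : ℝ)
      ≤ (((univ : Finset ι).filter (fun k => τ k ≠ 0)).card : ℝ) ^ 2 := by
  set Bs := (base v τ).filter (fun P => (P.filter (fun k => τ k ≠ 0)).card ≤ 3) with hBs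
  have hself : ∀ i, pw τ i i = 0 := by
    intro i
    unfold pw
    by_cases hi : τ i ≠ 0
    · rw [if_pos ⟨hi, hi⟩, if_neg (ne_neg_self' hp5 hi), if_pos rfl]
      norm_num
    · rw [if_neg (fun h => hi h.1)]
  have hP : ∀ P ∈ Bs, (4 : ℝ) ≤ ∑ z ∈ P.offDiag, pw τ z.1 z.2 := by
    intro P hPB
    rw [hBs, mem_filter] at hPB
    obtain ⟨hPb, hP3⟩ := hPB
    have h2 := base_two hl 0 hPb
    have hs := base_sum hl hPb
    set S := P.filter (fun k => τ k ≠ 0) with hS
    have hsS : ∑ k ∈ S, τ k = 0 := by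
      rw [← hs, hS]
      exact Finset.sum_filter_ne_zero P
    have h3 : ∑ z ∈ S.offDiag, pw τ z.1 z.2 ≤ ∑ z ∈ P.offDiag, pw τ z.1 z.2 := by
      apply sum_le_sum_of_subset_of_nonneg
      · intro z hz
        rw [mem_offDiag] at hz ⊢
        exact ⟨(mem_filter.1 hz.1).1, (mem_filter.1 hz.2.1).1, hz.2.2⟩
      · intro z _ _
        exact pw_nonneg hp5 _ _
    refine le_trans ?_ h3
    have h4 := sum_sum_eq_offDiag S (pw τ)
    simp only [hself, sum_const_zero, add_zero] at h4
    rw [← h4]
    have hcases : S.card = 2 ∨ S.card = 3 := by omega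
    rcases hcases with hc | hc
    · obtain ⟨i, j, hij, hSe⟩ := Finset.card_eq_two.1 hc
      have hi : τ i ≠ 0 := (mem_filter.1 (by rw [← hS, hSe]; simp : i ∈ P.filter (fun k => τ k ≠ 0))).2
      have hj : τ j ≠ 0 := (mem_filter.1 (by rw [← hS, hSe]; simp : j ∈ P.filter (fun k => τ k ≠ 0))).2
      rw [hSe, sum_pair hij] at hsS
      have hji : τ j = -τ i := by
        rw [eq_neg_iff_add_eq_zero, add_comm]
        exact hsS
      have hij' : τ i = -τ j := by rw [hji, neg_neg]
      have hne : τ j ≠ τ i := by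
        rw [hji]
        exact (ne_neg_self' hp5 hi).symm
      have e1 : pw τ i j = 2 := by
        unfold pw
        rw [if_pos ⟨hi, hj⟩, if_pos hji, if_neg hne]
        norm_num
      have e2 : pw τ j i = 2 := by
        unfold pw
        rw [if_pos ⟨hj, hi⟩, if_pos hij', if_neg hne.symm]
        norm_num
      rw [hSe, sum_pair hij, sum_pair hij, sum_pair hij, hself, hself, e1, e2]
      norm_num
    · obtain ⟨i, j, k, hij, hik, hjk, hSe⟩ := Finset.card_eq_three.1 hc
      have hi : τ i ≠ 0 := (mem_filter.1 (by rw [← hS, hSe]; simp : i ∈ P.filter (fun k => τ k ≠ 0))).2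
      have hj : τ j ≠ 0 := (mem_filter.1 (by rw [← hS, hSe]; simp : j ∈ P.filter (fun k => τ k ≠ 0))).2
      have hk : τ k ≠ 0 := (mem_filter.1 (by rw [← hS, hSe]; simp : k ∈ P.filter (fun k => τ k ≠ 0))).2
      have hsum3 : ∀ f : ι → ℝ, ∑ x ∈ ({i, j, k} : Finset ι), f x = f i + (f j + f k) := by
        intro f
        rw [sum_insert (by simp [hij, hik]), sum_pair hjk]
      have hsumτ : τ i + (τ j + τ k) = 0 := by
        rw [hSe, sum_insert (by simp [hij, hik]), sum_pair hjk] at hsS
        exact hsS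
      have n1 : τ j ≠ -τ i := by
        intro h
        apply hk
        rw [h] at hsumτ
        simpa using hsumτ
      have n2 : τ k ≠ -τ i := by
        intro h
        apply hj
        rw [h] at hsumτ
        have : τ j = 0 := by
          have h5 : τ i + (τ j + -τ i) = τ j := by ring
          rw [h5] at hsumτ
          exact hsumτ
        exact this
      have n3 : τ k ≠ -τ j := by
        intro h
        apply hi
        rw [h] at hsumτ
        simpa using hsumτ
      have n1' : τ i ≠ -τ j := fun h => n1 (by rw [h, neg_neg])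
      have n2' : τ i ≠ -τ k := fun h => n2 (by rw [h, neg_neg])
      have n3' : τ j ≠ -τ k := fun h => n3 (by rw [h, neg_neg])
      have pwval : ∀ a b : ι, τ a ≠ 0 → τ b ≠ 0 → τ b ≠ -τ a →
          pw τ a b = if τ b = τ a then 0 else 1 := by
        intro a b ha hb hab
        unfold pw
        rw [if_pos ⟨ha, hb⟩, if_neg hab]
        split_ifs <;> norm_num
      have m12 : ¬ (τ j = τ i ∧ τ k = τ i) := by
        rintro ⟨h1, h2'⟩
        rw [h1, h2'] at hsumτ
        exact three_ne hp5 hi (by rw [add_assoc]; exact hsumτ)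
      rw [hSe, hsum3, hsum3, hsum3, hsum3, hself, hself, hself,
        pwval i j hi hj n1, pwval i k hi hk n2, pwval j i hj hi n1', pwval j k hj hk n3,
        pwval k i hk hi n2', pwval k j hk hj n3']
      by_cases a1 : τ j = τ i
      · have a2 : τ k ≠ τ i := fun h => m12 ⟨a1, h⟩
        have a3 : τ k ≠ τ j := by rw [a1]; exact a2
        rw [if_pos a1, if_neg a2, if_pos a1.symm, if_neg a3, if_neg a2.symm, if_neg a3.symm]
        norm_num
      · by_cases a2 : τ k = τ i
        · have a3 : τ k ≠ τ j := by rw [a2]; exact fun h => a1 h.symm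
          rw [if_neg a1, if_pos a2, if_neg (fun h => a1 h.symm), if_neg a3, if_pos a2.symm,
            if_neg a3.symm]
          norm_num
        · have b1 : ¬ τ i = τ j := fun h => a1 h.symm
          have b2 : ¬ τ i = τ k := fun h => a2 h.symm
          rw [if_neg a1, if_neg a2, if_neg b1, if_neg b2]
          split_ifs <;> norm_num
  have hBsub : ∀ P ∈ Bs, ∀ Q ∈ Bs, P ≠ Q → (P ∩ Q).card ≤ 1 := by
    intro P hPB Q hQB hne
    rw [hBs, mem_filter] at hPB hQB
    exact flats_inter hv (base_subset hPB.1) (base_subset hQB.1) hne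
  have h8 := sum_offDiag_le Bs hBsub (fun z => pw τ z.1 z.2) (fun z => pw_nonneg hp5 _ _)
  have h9 := sum_le_sum hP
  rw [sum_const, nsmul_eq_mul] at h9
  have h10 := sum_sum_eq_offDiag (univ : Finset ι) (pw τ)
  simp only [hself, sum_const_zero, add_zero] at h10
  rw [← h10] at h8
  have h11 := sum_pw_le (τ := τ)
  linarith

end

end Pool.Agent.H87
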