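import Mathlib
import Pool.Agent.H87.Count

set_option autoImplicit false
set_option linter.unusedSectionVars false

namespace Pool.Agent.H87

open Finset Module

/-- Existence of a good certificate. -/
def Cert (r : ℝ) (p : ℕ) : Prop :=
  ∀ n0 n1 : ℝ, 0 < n1 → n1 ≤ n0 → ∃ u κ μ : ℝ, 1 ≤ u ∧ 0 ≤ μ ∧
    (∀ a b : ℕ, 2 ≤ b → p ≤ a + b → κ * ((a : ℝ) * b) ≤
      ((a : ℝ) + u * b) ^ 2 / 2 - (a + u ^ 2 * b) + (if b ≤ 3 then μ else 0)) ∧
    (n0 + u * n1) ^ 2 / r + μ * n1 ^ 2 / 4 ≤ κ * (n0 * n1)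

theorem family_cert (u : ℝ) (hu : 1 ≤ u) (a b : ℕ) (hb : 2 ≤ b) :
    (17 / 10 * u - 1 / 4) * ((a : ℝ) * b) ≤
      ((a : ℝ) + u * b) ^ 2 / 2 - (a + u ^ 2 * b)
        + (if b ≤ 3 then (7 / 5 * u + 1 / 2) ^ 2 / 2 else 0) := by
  have ha : (0 : ℝ) ≤ a := Nat.cast_nonneg _
  by_cases hb3 : b ≤ 3
  · rw [if_pos hb3]
    have hcases : b = 2 ∨ b = 3 := by omega
    rcases hcases with rfl | rfl
    · push_cast
      nlinarith [sq_nonneg ((a : ℝ) - (7 / 5 * u + 1 / 2))]
    · push_cast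
      nlinarith [sq_nonneg ((a : ℝ) - (21 / 10 * u + 1 / 4)), sq_nonneg u]
  · rw [if_neg hb3, add_zero]
    have hb4 : (4 : ℝ) ≤ b := by
      have : 4 ≤ b := by omega
      exact_mod_cast this
    -- (a - s)^2/2 + (u^2 b (b-2) - s^2)/2 with s = (7/10 u - 1/4) b + 1
    have h1 : (7 / 10 * u - 1 / 4) * b + 1 ≤ 7 / 10 * u * b := by nlinarith
    have h0 : 0 ≤ (7 / 10 * u - 1 / 4) * b + 1 := by nlinarith
    have h2 : ((7 / 10 * u - 1 / 4) * b + 1) ^ 2 ≤ (7 / 10 * u * b) ^ 2 := by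
      apply pow_le_pow_left₀ h0 h1
    have h3 : (7 / 10 * u * b) ^ 2 ≤ u ^ 2 * (b * (b - 2)) := by
      have h4 : (49 / 100 : ℝ) * b ^ 2 ≤ b * (b - 2) := by nlinarith
      have := mul_le_mul_of_nonneg_left h4 (sq_nonneg u)
      nlinarith
    nlinarith [sq_nonneg ((a : ℝ) - ((7 / 10 * u - 1 / 4) * b + 1))]

theorem cert_three (p : ℕ) (hp : 7 ≤ p) : Cert 3 p := by
  intro n0 n1 hn1 hn01
  by_cases h1 : n0 ≤ 8 / 5 * n1
  · refine ⟨1, 10 / 7, 0, le_rfl, le_rfl, ?_, ?_⟩
    · intro a b hb hab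
      have hab' : (7 : ℝ) ≤ (a : ℝ) + b := by
        have : 7 ≤ a + b := le_trans hp hab
        exact_mod_cast this
      simp only [ite_self, one_pow, one_mul, add_zero]
      nlinarith [sq_nonneg ((a : ℝ) - b)]
    · nlinarith
  · by_cases h2 : n0 ≤ 27 / 10 * n1
    · refine ⟨9 / 5, 5 / 2, 0, by norm_num, le_rfl, ?_, ?_⟩
      · intro a b hb hab
        have ha : (0 : ℝ) ≤ a := Nat.cast_nonneg _
        simp only [ite_self, add_zero]
        by_cases hb2 : b = 2
        · subst hb2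
          have ha5 : (5 : ℝ) ≤ a := by
            have : 5 ≤ a := by omega
            exact_mod_cast this
          push_cast
          nlinarith
        · have hb3 : (3 : ℝ) ≤ b := by
            have : 3 ≤ b := by omega
            exact_mod_cast this
          nlinarith [sq_nonneg ((a : ℝ) - (7 / 10 * b + 1)), sq_nonneg ((b : ℝ) - 3)]
      · nlinarith
    · by_cases h3 : n0 ≤ 17 / 5 * n1
      · refine ⟨21 / 10, 33 / 10, 9 / 2, by norm_num, by norm_num, ?_, ?_⟩
        · intro a b hb hab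
          have ha : (0 : ℝ) ≤ a := Nat.cast_nonneg _
          by_cases hb3 : b ≤ 3
          · rw [if_pos hb3]
            have hcases : b = 2 ∨ b = 3 := by omega
            rcases hcases with rfl | rfl
            · have ha5 : (5 : ℝ) ≤ a := by
                have : 5 ≤ a := by omega
                exact_mod_cast this
              push_cast
              nlinarith
            · push_cast
              nlinarith [sq_nonneg ((a : ℝ) - 23 / 5)]
          · rw [if_neg hb3, add_zero]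
            have hb4 : (4 : ℝ) ≤ b := by
              have : 4 ≤ b := by omega
              exact_mod_cast this
            nlinarith [sq_nonneg ((a : ℝ) - (6 / 5 * b + 1)), sq_nonneg ((b : ℝ) - 4)]
        · nlinarith
      · push Not at h3
        set x : ℝ := n0 / n1 with hx
        have hxn : n0 = x * n1 := by rw [hx]; field_simp
        have hx34 : 17 / 5 < x := by
          rw [hx, lt_div_iff₀ hn1]
          exact h3
        refine ⟨17 / 20 * x, 17 / 10 * (17 / 20 * x) - 1 / 4,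
          (7 / 5 * (17 / 20 * x) + 1 / 2) ^ 2 / 2, by linarith, by positivity, ?_, ?_⟩
        · intro a b hb _
          exact family_cert _ (by linarith) a b hb
        · rw [hxn]
          have h4 : (x * n1 + 17 / 20 * x * n1) ^ 2 / 3
              + (7 / 5 * (17 / 20 * x) + 1 / 2) ^ 2 / 2 * n1 ^ 2 / 4
              = n1 ^ 2 * ((x + 17 / 20 * x) ^ 2 / 3 + (7 / 5 * (17 / 20 * x) + 1 / 2) ^ 2 / 8) := by
            ring
          have h5 : (17 / 10 * (17 / 20 * x) - 1 / 4) * (x * n1 * n1)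
              = n1 ^ 2 * ((17 / 10 * (17 / 20 * x) - 1 / 4) * x) := by ring
          rw [h4, h5]
          apply mul_le_mul_of_nonneg_left _ (sq_nonneg _)
          nlinarith

theorem cert_four (p : ℕ) (hp : 5 ≤ p) : Cert 4 p := by
  intro n0 n1 hn1 hn01
  by_cases h1 : n0 ≤ 2 * n1
  · refine ⟨1, 6 / 5, 0, le_rfl, le_rfl, ?_, ?_⟩
    · intro a b hb hab
      have hab' : (5 : ℝ) ≤ (a : ℝ) + b := by
        have : 5 ≤ a + b := le_trans hp hab
        exact_mod_cast this
      simp only [ite_self, one_pow, one_mul, add_zero]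
      nlinarith [sq_nonneg ((a : ℝ) - b)]
    · nlinarith
  · push Not at h1
    set x : ℝ := n0 / n1 with hx
    have hxn : n0 = x * n1 := by rw [hx]; field_simp
    have hx2 : 2 < x := by
      rw [hx, lt_div_iff₀ hn1]
      exact h1
    refine ⟨x, 17 / 10 * x - 1 / 4,
      (7 / 5 * x + 1 / 2) ^ 2 / 2, by linarith, by positivity, ?_, ?_⟩
    · intro a b hb _
      exact family_cert _ (by linarith) a b hb
    · rw [hxn]
      have h4 : (x * n1 + x * n1) ^ 2 / 4
          + (7 / 5 * x + 1 / 2) ^ 2 / 2 * n1 ^ 2 / 4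
          = n1 ^ 2 * ((x + x) ^ 2 / 4 + (7 / 5 * x + 1 / 2) ^ 2 / 8) := by
        ring
      have h5 : (17 / 10 * x - 1 / 4) * (x * n1 * n1)
          = n1 ^ 2 * ((17 / 10 * x - 1 / 4) * x) := by ring
      rw [h4, h5]
      apply mul_le_mul_of_nonneg_left _ (sq_nonneg _)
      nlinarith

section

variable {ι : Type*} [Fintype ι] [DecidableEq ι]
variable {E : Type*} [NormedAddCommGroup E] [InnerProductSpace ℂ E] [FiniteDimensional ℂ E]
variable {p : ℕ} [hp : Fact p.Prime]
variable {v : ι → E} {τ : ι → ZMod p}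

theorem base_planes (hv : PairIndep v) : ∀ P ∈ base v τ,
    ∃ L : Submodule ℂ E, finrank ℂ L = 2 ∧ ∀ i ∈ P, v i ∈ L := by
  intro P hP
  obtain ⟨i, j, hij, rfl⟩ := mem_flats.1 (base_subset hP)
  exact ⟨Submodule.span ℂ {v i, v j}, finrank_pair hv hij, fun k hk => mem_fl.1 hk⟩

theorem base_inter (hv : PairIndep v) : ∀ P ∈ base v τ, ∀ Q ∈ base v τ, P ≠ Q →
    (P ∩ Q).card ≤ 1 := fun _ hP _ hQ hne =>
  flats_inter hv (base_subset hP) (base_subset hQ) hne

theorem main_majority (n : ℕ) (hn : finrank ℂ E = n + 1) (hn3 : 3 ≤ n + 1) (hn4 : n + 1 ≤ 4)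
    (hv : PairIndep v) (hv0 : ∀ i, v i ≠ 0)
    (hspan : Submodule.span ℂ (Set.range v) = ⊤)
    (hl : LocalCond v τ) (hτ : ∃ i j, τ i ≠ τ j) (hp5 : 5 ≤ p)
    (hcert : Cert ((n : ℝ) + 1) p)
    (hmaj : Fintype.card ι < 2 * ((univ : Finset ι).filter (fun k => τ k = 0)).card) : False := by
  have hsplit := card_split (τ := τ) (univ : Finset ι)
  rw [Finset.card_univ] at hsplit
  have hn1pos : 0 < ((univ : Finset ι).filter (fun k => τ k ≠ 0)).card := by
    rw [Finset.card_pos]
    obtain ⟨i, j, hij⟩ := hτ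
    by_cases hi : τ i = 0
    · refine ⟨j, mem_filter.2 ⟨mem_univ _, ?_⟩⟩
      intro h
      exact hij (hi.trans h.symm)
    · exact ⟨i, mem_filter.2 ⟨mem_univ _, hi⟩⟩
  set n0 := ((univ : Finset ι).filter (fun k => τ k = 0)).card with hn0d
  set n1 := ((univ : Finset ι).filter (fun k => τ k ≠ 0)).card with hn1d
  have hn01 : (n1 : ℝ) ≤ n0 := by
    have : n1 ≤ n0 := by omega
    exact_mod_cast this
  have hn1R : (0 : ℝ) < n1 := by exact_mod_cast hn1pos
  have hn0R : (0 : ℝ) < n0 := lt_of_lt_of_le hn1R hn01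
  obtain ⟨u, κ, μ, hu, hμ, hcert1, hcert2⟩ := hcert n0 n1 hn1R hn01
  have hstab := semistable_cw hv hv0 hl hτ hspan hp5 (by omega) (by omega) hmaj u hu
  have hcw : ∀ i, 0 ≤ cw τ u i := by
    intro i
    unfold cw
    split_ifs <;> linarith
  have hboj := weighted_bojanowski n hn v hv0 hspan (cw τ u) hcw hstab (base v τ)
    (base_inter hv) (base_planes hv)
  rw [sum_cw, sum_cw_sq] at hboj
  simp only [sum_cw, sum_cw_sq] at hboj
  rw [← hn0d, ← hn1d] at hboj
  -- lower bound of the left-hand side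
  have hterm : ∀ P ∈ base v τ,
      κ * (((P.filter (fun k => τ k = 0)).card : ℝ) * ((P.filter (fun k => τ k ≠ 0)).card : ℝ))
        - (if (P.filter (fun k => τ k ≠ 0)).card ≤ 3 then μ else 0)
      ≤ (((P.filter (fun k => τ k = 0)).card : ℝ)
          + u * ((P.filter (fun k => τ k ≠ 0)).card : ℝ)) ^ 2 / 2
        - (((P.filter (fun k => τ k = 0)).card : ℝ)
          + u ^ 2 * ((P.filter (fun k => τ k ≠ 0)).card : ℝ)) := by
    intro P hP
    have h1 := hcert1 (P.filter (fun k => τ k = 0)).card (P.filter (fun k => τ k ≠ 0)).card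
      (base_two hl 0 hP) (by rw [card_split]; exact base_card_ge hl hP)
    linarith
  have hsum := sum_le_sum hterm
  rw [sum_sub_distrib, ← mul_sum] at hsum
  -- cross sum
  have hcross : ∑ P ∈ base v τ, ((P.filter (fun k => τ k = 0)).card : ℝ)
      * ((P.filter (fun k => τ k ≠ 0)).card : ℝ) = (n0 : ℝ) * n1 := by
    have h1 := sum_cross hv (base v τ) base_subset
      ((univ : Finset ι).filter (fun k => τ k = 0)) ((univ : Finset ι).filter (fun k => τ k ≠ 0))
      (by
        rw [Finset.disjoint_left]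
        intro k hk hk'
        exact (mem_filter.1 hk').2 (mem_filter.1 hk).2)
      (by
        intro i hi j hj
        apply fl_mem_base
        rw [(mem_filter.1 hi).2]
        exact (mem_filter.1 hj).2.symm)
    have h2 : ∀ (P : Finset ι), P ∩ ((univ : Finset ι).filter (fun k => τ k = 0))
        = P.filter (fun k => τ k = 0) := by
      intro P
      ext k
      simp
    have h3 : ∀ (P : Finset ι), P ∩ ((univ : Finset ι).filter (fun k => τ k ≠ 0))
        = P.filter (fun k => τ k ≠ 0) := by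
      intro P
      ext k
      simp
    simp only [h2, h3] at h1
    rw [← hn0d, ← hn1d] at h1
    exact_mod_cast h1
  have hsmall : ∑ P ∈ base v τ, (if (P.filter (fun k => τ k ≠ 0)).card ≤ 3 then μ else 0)
      ≤ μ * (n1 : ℝ) ^ 2 / 4 := by
    rw [← Finset.sum_filter, sum_const, nsmul_eq_mul]
    have h1 := small_base hp5 hv hl
    rw [← hn1d] at h1
    nlinarith
  rw [hcross] at hsum
  have hpos : (0 : ℝ) ≤ u ^ 2 * n1 := by positivity
  linarith

theorem main_contra (n : ℕ) (hn : finrank ℂ E = n + 1) (hn3 : 3 ≤ n + 1) (hn4 : n + 1 ≤ 4)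
    (hv : PairIndep v) (hv0 : ∀ i, v i ≠ 0)
    (hspan : Submodule.span ℂ (Set.range v) = ⊤)
    (hl : LocalCond v τ) (hτ : ∃ i j, τ i ≠ τ j) (hp5 : 5 ≤ p)
    (hcert : Cert ((n : ℝ) + 1) p) (hrp : 1 / ((n : ℝ) + 1) ≤ 1 / 2 - 1 / (p : ℝ)) : False := by
  by_cases hmaj : ∀ c : ZMod p, 2 * ((univ : Finset ι).filter (fun k => τ k = c)).card
      ≤ Fintype.card ι
  · have hsq := sum_sq_ge hv hmaj
    have hstab := semistable_one hv hv0 hl hτ hspan (by omega)
    have hboj := weighted_bojanowski n hn v hv0 hspan (fun _ => (1 : ℝ)) (fun _ => zero_le_one)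
      hstab (base v τ) (base_inter hv) (base_planes hv)
    simp only [sum_const, nsmul_eq_mul, mul_one, one_pow, Finset.card_univ] at hboj
    have hppos : (0 : ℝ) < p := by exact_mod_cast (by omega : 0 < p)
    have hterm : ∀ P ∈ base v τ, (1 / 2 - 1 / (p : ℝ)) * (P.card : ℝ) ^ 2
        ≤ (P.card : ℝ) ^ 2 / 2 - P.card := by
      intro P hP
      have h1 : (p : ℝ) ≤ P.card := by exact_mod_cast base_card_ge hl hP
      have h2 : (P.card : ℝ) ≤ 1 / (p : ℝ) * (P.card : ℝ) ^ 2 := by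
        rw [one_div, inv_mul_eq_div, le_div_iff₀ hppos]
        nlinarith
      linarith
    have hsum := sum_le_sum hterm
    rw [← mul_sum] at hsum
    have hn1 : (0 : ℝ) < (n : ℝ) + 1 := by positivity
    have h3 : 0 ≤ 1 / 2 - 1 / (p : ℝ) := le_trans (by positivity) hrp
    have h4 : (1 / 2 - 1 / (p : ℝ)) * ((Fintype.card ι : ℕ) : ℝ) ^ 2 ≤
        (1 / 2 - 1 / (p : ℝ)) * ∑ P ∈ base v τ, (P.card : ℝ) ^ 2 :=
      mul_le_mul_of_nonneg_left hsq h3
    have h5 : 1 / ((n : ℝ) + 1) * ((Fintype.card ι : ℕ) : ℝ) ^ 2 ≤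
        (1 / 2 - 1 / (p : ℝ)) * ((Fintype.card ι : ℕ) : ℝ) ^ 2 :=
      mul_le_mul_of_nonneg_right hrp (sq_nonneg _)
    have hcard : (0 : ℝ) < ((Fintype.card ι : ℕ) : ℝ) := by
      obtain ⟨i, _⟩ := hτ
      have : 0 < Fintype.card ι := Fintype.card_pos_iff.2 ⟨i⟩
      exact_mod_cast this
    have h6 : 1 / ((n : ℝ) + 1) * ((Fintype.card ι : ℕ) : ℝ) ^ 2
        = ((Fintype.card ι : ℕ) : ℝ) ^ 2 / ((n : ℝ) + 1) := by ring
    linarith
  · push Not at hmaj
    obtain ⟨c, hc⟩ := hmaj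
    have hl' := hl.sub c
    have hτ' : ∃ i j, (fun i => τ i - c) i ≠ (fun i => τ i - c) j := by
      obtain ⟨i, j, hij⟩ := hτ
      exact ⟨i, j, fun h => hij (sub_left_inj.1 h)⟩
    refine main_majority (τ := fun i => τ i - c) n hn hn3 hn4 hv hv0 hspan hl' hτ' hp5 hcert ?_
    have h1 : (univ : Finset ι).filter (fun k => (fun i => τ i - c) k = 0)
        = (univ : Finset ι).filter (fun k => τ k = c) := by
      ext k
      simp [sub_eq_zero]
    rw [h1]
    exact hc

end

end Pool.Agent.H87
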