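import Mathlib
import Pool.Agent.H87.Main

set_option autoImplicit false
set_option linter.unusedSectionVars false

namespace Pool.Agent.H87

open Finset Module

section Restrict

variable {ι : Type*} [Fintype ι] [DecidableEq ι] {V : Type*} [AddCommGroup V] [Module ℂ V]
variable {p : ℕ} [hp : Fact p.Prime]

/-- extend an independent family inside the range of `f` -/
theorem extend_indep (f : ι → V) (m : ℕ) (b : Fin m → V) (hb : LinearIndependent ℂ b)
    (hbf : Set.range b ⊆ Set.range f)
    (hm : m < finrank ℂ (Submodule.span ℂ (Set.range f))) :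
    ∃ b' : Fin (m + 1) → V, LinearIndependent ℂ b' ∧ Set.range b ⊆ Set.range b' ∧
      Set.range b' ⊆ Set.range f := by
  have hex : ∃ k, f k ∉ Submodule.span ℂ (Set.range b) := by
    by_contra hcon
    push Not at hcon
    have h1 : Submodule.span ℂ (Set.range f) ≤ Submodule.span ℂ (Set.range b) := by
      rw [Submodule.span_le]
      rintro _ ⟨k, rfl⟩
      exact hcon k
    have : FiniteDimensional ℂ (Submodule.span ℂ (Set.range b)) :=
      FiniteDimensional.span_of_finite ℂ (Set.finite_range b)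
    have h2 := Submodule.finrank_mono h1
    have h3 := finrank_range_le_card (R := ℂ) b
    rw [Set.finrank, Fintype.card_fin] at h3
    omega
  obtain ⟨k, hk⟩ := hex
  refine ⟨Fin.snoc b (f k), linearIndependent_finSnoc.2 ⟨hb, hk⟩, ?_, ?_⟩
  · rintro _ ⟨i, rfl⟩
    exact ⟨i.castSucc, by simp⟩
  · rintro _ ⟨i, rfl⟩
    induction i using Fin.lastCases with
    | last => exact ⟨k, by simp⟩
    | cast i =>
      rw [Fin.snoc_castSucc]
      exact hbf ⟨i, rfl⟩

theorem restrict_contra (f : ι → V) (hf : PairIndep f) (τ : ι → ZMod p)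
    (hl : LocalCond f τ) (d : ℕ) (b : Fin (d + 1) → V) (hb : LinearIndependent ℂ b)
    (hbf : Set.range b ⊆ Set.range f) (i j : ι)
    (hi : f i ∈ Submodule.span ℂ (Set.range b)) (hj : f j ∈ Submodule.span ℂ (Set.range b))
    (hij : τ i ≠ τ j) (hd3 : 3 ≤ d + 1) (hd4 : d + 1 ≤ 4) (hp5 : 5 ≤ p)
    (hcert : Cert ((d : ℝ) + 1) p) (hrp : 1 / ((d : ℝ) + 1) ≤ 1 / 2 - 1 / (p : ℝ)) : False := by
  classical
  set V' := Submodule.span ℂ (Set.range b) with hV'
  have hfin : finrank ℂ V' = d + 1 := by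
    rw [hV', finrank_span_eq_card hb, Fintype.card_fin]
  have : FiniteDimensional ℂ V' := FiniteDimensional.span_of_finite ℂ (Set.finite_range b)
  have hE : finrank ℂ (EuclideanSpace ℂ (Fin (d + 1))) = d + 1 := by
    rw [finrank_euclideanSpace, Fintype.card_fin]
  obtain ⟨e⟩ : Nonempty (V' ≃ₗ[ℂ] EuclideanSpace ℂ (Fin (d + 1))) :=
    FiniteDimensional.nonempty_linearEquiv_of_finrank_eq (by rw [hfin, hE])
  let ι' := {m : ι // f m ∈ V'}
  let v : ι' → EuclideanSpace ℂ (Fin (d + 1)) := fun m => e ⟨f m.1, m.2⟩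
  -- spans
  have hmem : ∀ a b m : ι', v m ∈ Submodule.span ℂ {v a, v b} ↔
      f m.1 ∈ Submodule.span ℂ {f a.1, f b.1} := by
    intro a b m
    rw [Submodule.mem_span_pair, Submodule.mem_span_pair]
    constructor
    · rintro ⟨x, y, hxy⟩
      refine ⟨x, y, ?_⟩
      have h1 : e (x • ⟨f a.1, a.2⟩ + y • ⟨f b.1, b.2⟩) = e ⟨f m.1, m.2⟩ := by
        rw [map_add, map_smul, map_smul]
        exact hxy
      have h2 := congrArg Subtype.val (e.injective h1)
      simpa using h2
    · rintro ⟨x, y, hxy⟩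
      refine ⟨x, y, ?_⟩
      change x • e ⟨f a.1, a.2⟩ + y • e ⟨f b.1, b.2⟩ = e ⟨f m.1, m.2⟩
      rw [← map_smul, ← map_smul, ← map_add]
      congr 1
      apply Subtype.ext
      simpa using hxy
  have hfl : ∀ a b : ι', (fl v a b).map (Function.Embedding.subtype _) = fl f a.1 b.1 := by
    intro a b
    ext m
    simp only [Finset.mem_map, mem_fl, Function.Embedding.subtype_apply]
    constructor
    · rintro ⟨m', hm', rfl⟩
      exact (hmem a b m').1 hm'
    · intro hm
      have hmV : f m ∈ V' := by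
        refine (Submodule.span_le.2 ?_) hm
        intro x hx
        rcases hx with rfl | rfl
        · exact a.2
        · exact b.2
      exact ⟨⟨m, hmV⟩, (hmem a b ⟨m, hmV⟩).2 hm, rfl⟩
  have hv : PairIndep v := by
    intro a b hab
    have hab' : a.1 ≠ b.1 := fun h => hab (Subtype.ext h)
    have h1 := hf a.1 b.1 hab'
    rw [LinearIndependent.pair_iff] at h1 ⊢
    intro x y hxy
    apply h1 x y
    have h2 : e (x • ⟨f a.1, a.2⟩ + y • ⟨f b.1, b.2⟩) = 0 := by
      rw [map_add, map_smul, map_smul]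
      exact hxy
    rw [LinearEquiv.map_eq_zero_iff] at h2
    have h3 := congrArg Subtype.val h2
    simpa using h3
  have hne : (⟨i, hi⟩ : ι') ≠ ⟨j, hj⟩ := by
    intro h
    apply hij
    rw [Subtype.mk.injEq] at h
    rw [h]
  have hv0 : ∀ a, v a ≠ 0 := by
    intro a
    by_cases h : a = ⟨i, hi⟩
    · rw [h]
      exact hv.ne_zero hne
    · exact hv.ne_zero h
  have hspan : Submodule.span ℂ (Set.range v) = ⊤ := by
    rw [eq_top_iff]
    intro x _
    obtain ⟨y, rfl⟩ := e.surjective x
    have hy : (y : V) ∈ Submodule.span ℂ (Set.range b) := y.2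
    have key : ∀ z : V, ∀ hz : z ∈ V', e ⟨z, hz⟩ ∈ Submodule.span ℂ (Set.range v) := by
      intro z hz
      induction hz using Submodule.span_induction with
      | mem z hz' =>
        obtain ⟨m, hm⟩ := hbf hz'
        apply Submodule.subset_span
        refine ⟨⟨m, by rw [hm]; exact Submodule.subset_span hz'⟩, ?_⟩
        simp only [v]
        congr 1
        exact Subtype.ext hm
      | zero =>
        have : e ⟨0, Submodule.zero_mem _⟩ = 0 := by
          rw [← map_zero e]
          rfl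
        rw [this]
        exact Submodule.zero_mem _
      | add a c ha hc iha ihc =>
        have : e ⟨a + c, Submodule.add_mem _ ha hc⟩ = e ⟨a, ha⟩ + e ⟨c, hc⟩ := by
          rw [← map_add]
          rfl
        rw [this]
        exact Submodule.add_mem _ iha ihc
      | smul t a ha iha =>
        have : e ⟨t • a, Submodule.smul_mem _ t ha⟩ = t • e ⟨a, ha⟩ := by
          rw [← map_smul]
          rfl
        rw [this]
        exact Submodule.smul_mem _ _ iha
    exact key y.1 y.2
  have hl' : LocalCond v (fun m : ι' => τ m.1) := by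
    intro a b hab k hk
    have hab' : a.1 ≠ b.1 := fun h => hab (Subtype.ext h)
    have hk' : k.1 ∈ fl f a.1 b.1 := by
      rw [← hfl a b, Finset.mem_map]
      exact ⟨k, hk, rfl⟩
    have h1 := hl a.1 b.1 hab' k.1 hk'
    rw [← hfl a b, Finset.card_map, Finset.sum_map] at h1
    exact h1
  exact main_contra (τ := fun m : ι' => τ m.1) d hE hd3 hd4 hv hv0 hspan hl'
    ⟨⟨i, hi⟩, ⟨j, hj⟩, hij⟩ hp5 hcert hrp

/-- `β_p = 0` for `p ≥ 7`, in terms of the local conditions. -/
theorem const_of_seven (f : ι → V) (hf : PairIndep f) (τ : ι → ZMod p)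
    (hl : LocalCond f τ) (hrank : 3 ≤ finrank ℂ (Submodule.span ℂ (Set.range f)))
    (hp7 : 7 ≤ p) (i j : ι) : τ i = τ j := by
  by_contra hij
  have hne : i ≠ j := by
    rintro rfl
    exact hij rfl
  have hb := hf i j hne
  obtain ⟨b, hb1, hb2, hb3⟩ := extend_indep f 2 ![f i, f j] hb (by
    rintro _ ⟨a, rfl⟩
    fin_cases a
    · exact ⟨i, rfl⟩
    · exact ⟨j, rfl⟩) (by omega)
  refine restrict_contra f hf τ hl 2 b hb1 hb3 i j
    (Submodule.subset_span (hb2 ⟨0, rfl⟩)) (Submodule.subset_span (hb2 ⟨1, rfl⟩)) hij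
    (by norm_num) (by norm_num) (by omega) ?_ ?_
  · have := cert_three p hp7
    have h3 : ((2 : ℕ) : ℝ) + 1 = 3 := by norm_num
    rw [h3]
    exact this
  · have h7 : (7 : ℝ) ≤ p := by exact_mod_cast hp7
    have h8 : 1 / (p : ℝ) ≤ 1 / 7 := one_div_le_one_div_of_le (by norm_num) h7
    norm_num at h8 ⊢
    linarith

/-- `β_p = 0` for `p ≥ 5` in rank at least four, in terms of the local conditions. -/
theorem const_of_rank_four (f : ι → V) (hf : PairIndep f) (τ : ι → ZMod p)
    (hl : LocalCond f τ) (hrank : 4 ≤ finrank ℂ (Submodule.span ℂ (Set.range f)))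
    (hp5 : 5 ≤ p) (i j : ι) : τ i = τ j := by
  by_contra hij
  have hne : i ≠ j := by
    rintro rfl
    exact hij rfl
  have hb := hf i j hne
  obtain ⟨b, hb1, hb2, hb3⟩ := extend_indep f 2 ![f i, f j] hb (by
    rintro _ ⟨a, rfl⟩
    fin_cases a
    · exact ⟨i, rfl⟩
    · exact ⟨j, rfl⟩) (by omega)
  obtain ⟨c, hc1, hc2, hc3⟩ := extend_indep f 3 b hb1 hb3 (by omega)
  refine restrict_contra f hf τ hl 3 c hc1 hc3 i j
    (Submodule.subset_span (hc2 (hb2 ⟨0, rfl⟩))) (Submodule.subset_span (hc2 (hb2 ⟨1, rfl⟩))) hij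
    (by norm_num) (by norm_num) hp5 ?_ ?_
  · have := cert_four p hp5
    have h3 : ((3 : ℕ) : ℝ) + 1 = 4 := by norm_num
    rw [h3]
    exact this
  · have h7 : (5 : ℝ) ≤ p := by exact_mod_cast hp5
    have h8 : 1 / (p : ℝ) ≤ 1 / 5 := one_div_le_one_div_of_le (by norm_num) h7
    norm_num at h8 ⊢
    linarith

end Restrict

end Pool.Agent.H87
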