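import Mathlib
import Pool.Agent.H87.Reduce

set_option autoImplicit false
set_option linter.unusedSectionVars false

namespace Pool.Agent.H87

open Finset Module

section Wedge

variable {K : Type*} [Field K] {M : Type*} [AddCommGroup M] [Module K M]

/-- the linear functional `a ∧ b ↦ s a * t b - t a * s b` on the exterior algebra -/
noncomputable def wedgeFun (s t : M →ₗ[K] K) : ExteriorAlgebra K M →ₗ[K] K :=
  ExteriorAlgebra.liftAlternating
    (Function.update (0 : ∀ i : ℕ, M [⋀^Fin i]→ₗ[K] K) 2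
      ((Matrix.detRowAlternating : (Fin 2 → K) [⋀^Fin 2]→ₗ[K] K).compLinearMap
        (LinearMap.pi ![s, t])))

theorem wedgeFun_apply (s t : M →ₗ[K] K) (a b : M) :
    wedgeFun s t (ExteriorAlgebra.ι K a * ExteriorAlgebra.ι K b) = s a * t b - t a * s b := by
  have h1 : ExteriorAlgebra.ι K a * ExteriorAlgebra.ι K b
      = ExteriorAlgebra.ιMulti K 2 ![a, b] := by
    rw [ExteriorAlgebra.ιMulti_apply]
    simp
  rw [h1]
  unfold wedgeFun
  rw [ExteriorAlgebra.liftAlternating_apply_ιMulti, Function.update_self]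
  rw [AlternatingMap.compLinearMap_apply]
  change Matrix.det (Matrix.of fun i => (LinearMap.pi ![s, t]) ((![a, b] : Fin 2 → M) i)) = _
  rw [Matrix.det_fin_two]
  simp

end Wedge

section

variable {p : ℕ} [hp : Fact p.Prime] {n : ℕ} {V : Type*} [AddCommGroup V] [Module ℂ V]

/-- The degree two Orlik-Solomon relations modulo `p`. -/
def osRel (p : ℕ) {n : ℕ} (f : Fin n → V) :
    Submodule (ZMod p) (ExteriorAlgebra (ZMod p) (Fin n → ZMod p)) :=
  Submodule.span (ZMod p)
    {x | ∃ i j k : Fin n, i ≠ j ∧ i ≠ k ∧ j ≠ k ∧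
      ¬ LinearIndependent ℂ ![f i, f j, f k] ∧
      x = ExteriorAlgebra.ι (ZMod p) (Pi.single j (1 : ZMod p) : Fin n → ZMod p) *
            ExteriorAlgebra.ι (ZMod p) (Pi.single k (1 : ZMod p) : Fin n → ZMod p)
          - ExteriorAlgebra.ι (ZMod p) (Pi.single i (1 : ZMod p) : Fin n → ZMod p) *
            ExteriorAlgebra.ι (ZMod p) (Pi.single k (1 : ZMod p) : Fin n → ZMod p)
          + ExteriorAlgebra.ι (ZMod p) (Pi.single i (1 : ZMod p) : Fin n → ZMod p) *
            ExteriorAlgebra.ι (ZMod p) (Pi.single j (1 : ZMod p) : Fin n → ZMod p)}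

theorem third_mem (f : Fin n → V) (hf : PairIndep f) {i j k : Fin n} (hij : i ≠ j)
    (hdep : ¬ LinearIndependent ℂ ![f i, f j, f k]) : k ∈ fl f i j := by
  rw [mem_fl]
  by_contra hk
  apply hdep
  have h1 : (![f i, f j, f k] : Fin 3 → V) = Fin.snoc ![f i, f j] (f k) := by
    ext m
    fin_cases m <;> rfl
  rw [h1, linearIndependent_finSnoc]
  refine ⟨hf i j hij, ?_⟩
  intro h
  apply hk
  refine Submodule.span_mono ?_ h
  rintro _ ⟨m, rfl⟩
  fin_cases m
  · simp
  · simp

theorem localCond_of_mem (f : Fin n → V) (hf : PairIndep f) (τ : Fin n → ZMod p)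
    (h : ExteriorAlgebra.ι (ZMod p) ((fun _ => (1 : ZMod p)) : Fin n → ZMod p) *
      ExteriorAlgebra.ι (ZMod p) τ ∈ osRel p f) : LocalCond f τ := by
  classical
  intro a b hab m hm
  set P := fl f a b with hP
  -- functionals
  let s : (Fin n → ZMod p) →ₗ[ZMod p] ZMod p := ∑ l ∈ P, LinearMap.proj l
  let t : (Fin n → ZMod p) →ₗ[ZMod p] ZMod p := LinearMap.proj m
  have hs : ∀ x : Fin n → ZMod p, s x = ∑ l ∈ P, x l := by
    intro x
    simp [s]
  have ht : ∀ x : Fin n → ZMod p, t x = x m := fun x => rfl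
  have hs1 : ∀ i : Fin n, s (Pi.single i (1 : ZMod p)) = if i ∈ P then 1 else 0 := by
    intro i
    rw [hs]
    simp [Pi.single_apply]
  have ht1 : ∀ i : Fin n, t (Pi.single i (1 : ZMod p)) = if i = m then 1 else 0 := by
    intro i
    rw [ht]
    simp [Pi.single_apply, eq_comm]
  have hker : ∀ x ∈ osRel p f, wedgeFun s t x = 0 := by
    intro x hx
    unfold osRel at hx
    induction hx using Submodule.span_induction with
    | mem x hx =>
      obtain ⟨i, j, k, hij, hik, hjk, hdep, rfl⟩ := hx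
      rw [map_add, map_sub, wedgeFun_apply, wedgeFun_apply, wedgeFun_apply]
      simp only [hs1, ht1]
      have hk : k ∈ fl f i j := third_mem f hf hij hdep
      -- if two of i, j, k lie in P then all do
      have hQ : ∀ c d : Fin n, c ≠ d → c ∈ fl f i j → d ∈ fl f i j → c ∈ P → d ∈ P →
          P = fl f i j := by
        intro c d hcd hc hd hcP hdP
        rw [← fl_eq hf hij hcd hc hd, hP, ← fl_eq hf hab hcd hcP hdP]
      by_cases hPQ : P = fl f i j
      · have i1 : i ∈ P := by rw [hPQ]; exact left_mem_fl i j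
        have j1 : j ∈ P := by rw [hPQ]; exact right_mem_fl i j
        have k1 : k ∈ P := by rw [hPQ]; exact hk
        simp only [i1, j1, k1, if_true]
        ring
      · have nij : ¬ (i ∈ P ∧ j ∈ P) := fun h =>
          hPQ (hQ i j hij (left_mem_fl i j) (right_mem_fl i j) h.1 h.2)
        have nik : ¬ (i ∈ P ∧ k ∈ P) := fun h =>
          hPQ (hQ i k hik (left_mem_fl i j) hk h.1 h.2)
        have njk : ¬ (j ∈ P ∧ k ∈ P) := fun h =>
          hPQ (hQ j k hjk (right_mem_fl i j) hk h.1 h.2)
        have z : ∀ c d : Fin n, ¬ (c ∈ P ∧ d ∈ P) →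
            ((if c ∈ P then (1 : ZMod p) else 0) * (if d = m then 1 else 0)
              - (if c = m then 1 else 0) * (if d ∈ P then 1 else 0)) = 0 := by
          intro c d hcd
          by_cases hc : c ∈ P
          · have hd : d ∉ P := fun hd => hcd ⟨hc, hd⟩
            have hdm : d ≠ m := fun e => hd (e ▸ hm)
            simp [hc, hd, hdm]
          · have hcm : c ≠ m := fun e => hc (e ▸ hm)
            simp [hc, hcm]
        rw [z j k njk, z i k nik, z i j nij]
        ring
    | zero => exact map_zero _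
    | add x y _ _ hx hy => rw [map_add, hx, hy, add_zero]
    | smul c x _ hx => rw [map_smul, hx, smul_zero]
  have h0 := hker _ h
  rw [wedgeFun_apply, hs, hs, ht, ht] at h0
  simp only [sum_const, nsmul_eq_mul, mul_one, one_mul] at h0
  exact sub_eq_zero.1 h0

end

end Pool.Agent.H87
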