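import Mathlib
import Pool.Agent.H87.OS
import Pool.Agent.H87.AomotoDefs

set_option autoImplicit false

namespace Pool.Agent.H87.Aomoto

open Pool.Agent.H87

theorem betti_eq_zero_of_const {p : ℕ} (hp : p.Prime) {ℓ n : ℕ} (f : Fin n → (Fin ℓ → ℂ))
    (h : ∀ τ ∈ cocycles (ZMod p) f, ∀ i j, τ i = τ j) : aomotoBetti (ZMod p) f = 0 := by
  have : Fact p.Prime := ⟨hp⟩
  have hle : cocycles (ZMod p) f ≤
      Submodule.span (ZMod p) {(fun _ => (1 : ZMod p) : Fin n → ZMod p)} := by
    intro τ hτ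
    by_cases hn : Nonempty (Fin n)
    · obtain ⟨i₀⟩ := hn
      rw [Submodule.mem_span_singleton]
      refine ⟨τ i₀, ?_⟩
      ext j
      simp [h τ hτ i₀ j]
    · have : τ = 0 := by
        ext j
        exact absurd ⟨j⟩ hn
      rw [this]
      exact Submodule.zero_mem _
  have h1 := Submodule.finrank_mono hle
  have h2 : Module.finrank (ZMod p)
      (Submodule.span (ZMod p) {(fun _ => (1 : ZMod p) : Fin n → ZMod p)}) ≤ 1 := by
    have h3 := finrank_span_finset_le_card (R := ZMod p)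
      ({(fun _ => (1 : ZMod p) : Fin n → ZMod p)} : Finset (Fin n → ZMod p))
    rw [Finset.card_singleton, Set.finrank, Finset.coe_singleton] at h3
    exact h3
  unfold aomotoBetti
  omega

theorem mem_cocycles {K : Type} [CommRing K] {ℓ n : ℕ} (f : Fin n → (Fin ℓ → ℂ))
    (τ : Fin n → K) : τ ∈ cocycles K f ↔
      ExteriorAlgebra.ι K ((fun _ => (1 : K)) : Fin n → K) * ExteriorAlgebra.ι K τ ∈
        relations K f := by
  rfl

theorem localCond_of_cocycle {p : ℕ} [Fact p.Prime] {ℓ n : ℕ} (f : Fin n → (Fin ℓ → ℂ))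
    (hf : ∀ i j : Fin n, i ≠ j → LinearIndependent ℂ ![f i, f j])
    (τ : Fin n → ZMod p) (hτ : τ ∈ cocycles (ZMod p) f) : LocalCond f τ := by
  apply localCond_of_mem f hf τ
  exact hτ

end Pool.Agent.H87.Aomoto
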